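import Pool.Agent.W2helper32.KR.Wreath

/-!
# The second equivariant Euler characteristic of wreath products
-/

set_option autoImplicit false

open scoped BigOperators Classical

noncomputable section

namespace Pool.Agent.W2helper32.KR

open Pool.Agent.Y63.KR Pool.Agent.Q90.WR

section mobius

variable {H : Type} [Group H] [Finite H]

/-- the Möbius function of the poset of the `p`-subgroups normalised by `h` and `k` -/
def mu (p : ℕ) (h k : H) : Subgroup H → ℤ :=
  Classical.choose (exists_mu (inv p ({h, k} : Set H)))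

theorem mu_spec (p : ℕ) (h k : H) : ∀ Q ∈ inv p ({h, k} : Set H),
    ∑ U ∈ (inv p ({h, k} : Set H)).filter (· ≤ Q), mu p h k U = if Q = ⊥ then 1 else 0 :=
  Classical.choose_spec (exists_mu (inv p ({h, k} : Set H)))

end mobius

section general

variable {Γ H : Type} [Group Γ] [Group H] (f : Γ →* H) {p : ℕ}

theorem conjSub_map (x : Γ) (U : Subgroup Γ) : conjSub (f x) (U.map f) = (conjSub x U).map f := by
  ext z
  rw [mem_conjSub]
  constructor
  · rintro ⟨u, hu, hu'⟩
    refine ⟨x * u * x⁻¹, conj_mem_conjSub hu, ?_⟩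
    rw [map_mul, map_mul, map_inv, hu']
    group
  · rintro ⟨w, hw, rfl⟩
    rw [SetLike.mem_coe, mem_conjSub] at hw
    exact ⟨_, hw, by rw [map_mul, map_mul, map_inv]⟩

theorem conjSub_comap {x : Γ} {V : Subgroup H} (h : conjSub (f x) V = V) :
    conjSub x (V.comap f) = V.comap f := by
  ext z
  rw [mem_conjSub, Subgroup.mem_comap, Subgroup.mem_comap, map_mul, map_mul, map_inv,
    ← mem_conjSub, h]

variable {f}

theorem map_eq_bot_iff' {U : Subgroup Γ} (hU : U ⊓ f.ker = ⊥) : U.map f = ⊥ ↔ U = ⊥ := by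
  constructor
  · intro h
    rw [← hU]
    refine (inf_eq_left.mpr ?_).symm
    intro u hu
    have h1 : f u ∈ U.map f := ⟨u, hu, rfl⟩
    rw [h, Subgroup.mem_bot] at h1
    exact h1
  · rintro rfl
    exact Subgroup.map_bot f

theorem isPGroup_of_map {U : Subgroup Γ} (hU : U ⊓ f.ker = ⊥) (h : IsPGroup p (U.map f)) :
    IsPGroup p U := by
  rintro ⟨u, hu⟩
  obtain ⟨k, hk⟩ := h ⟨f u, u, hu, rfl⟩
  refine ⟨k, ?_⟩
  have h1 : f (u ^ p ^ k) = 1 := by
    rw [map_pow]
    exact congrArg Subtype.val hk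
  have h2 : u ^ p ^ k ∈ U ⊓ f.ker := ⟨U.pow_mem hu _, h1⟩
  rw [hU, Subgroup.mem_bot] at h2
  exact Subtype.ext h2

/-- splitting the alternating sum at the subgroups which meet the kernel trivially -/
theorem W_split [Finite Γ] [Finite H] (x y : Γ) : W p ({x, y} : Set Γ) =
    ∑ U ∈ (inv p ({x, y} : Set Γ)).filter (fun U => U ⊓ f.ker = ⊥),
      mu p (f x) (f y) (U.map f) *
        cs ((inv p ({x, y} : Set Γ)).filter (fun P => ¬ P ⊓ f.ker = ⊥ ∧ U < P)) := by
  rw [W_cs]
  refine cs_split (bot_mem _) (fun U => U ⊓ f.ker = ⊥) ?_ (by simp) (fun U => mu p (f x) (f y)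
    (U.map f)) ?_
  · intro P _ Q _ h hQ
    rw [eq_bot_iff, ← hQ]
    exact inf_le_inf_right _ h
  · intro Q hQ hQD
    have hQ' := mem_inv.mp hQ
    have hx : ∀ {U : Subgroup Γ}, U ∈ inv p ({x, y} : Set Γ) → U.map f ∈ inv p ({f x, f y} : Set H) := by
      intro U hU
      rw [mem_inv] at hU ⊢
      refine ⟨hU.1.map f, ?_⟩
      rintro z (rfl | rfl)
      · rw [conjSub_map, hU.2 x (by simp)]
      · rw [conjSub_map, hU.2 y (by simp)]
    have h1 : ∑ U ∈ (inv p ({x, y} : Set Γ)).filter (fun U => U ⊓ f.ker = ⊥ ∧ U ≤ Q),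
        mu p (f x) (f y) (U.map f) =
        ∑ V ∈ (inv p ({f x, f y} : Set H)).filter (· ≤ Q.map f), mu p (f x) (f y) V := by
      refine Finset.sum_bij' (fun U _ => U.map f) (fun V _ => Q ⊓ V.comap f) ?_ ?_ ?_ ?_ ?_
      · intro U hU
        rw [Finset.mem_filter] at hU ⊢
        exact ⟨hx hU.1, Subgroup.map_mono hU.2.2⟩
      · intro V hV
        rw [Finset.mem_filter, mem_inv] at hV
        rw [Finset.mem_filter, mem_inv]
        refine ⟨⟨hQ'.1.to_le inf_le_left, ?_⟩, ?_, inf_le_left⟩
        · rintro z (rfl | rfl)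
          · rw [conjSub_inf, hQ'.2 z (by simp), conjSub_comap f (hV.1.2 _ (by simp))]
          · rw [conjSub_inf, hQ'.2 z (by simp), conjSub_comap f (hV.1.2 _ (by simp))]
        · rw [eq_bot_iff, ← hQD]
          exact inf_le_inf_right _ inf_le_left
      · intro U hU
        rw [Finset.mem_filter] at hU
        apply le_antisymm
        · rintro q ⟨hq, u, hu, huq⟩
          rw [inj_of_inf hQD hq (hU.2.2 hu) huq.symm]
          exact hu
        · exact le_inf hU.2.2 (Subgroup.le_comap_map f U)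
      · intro V hV
        rw [Finset.mem_filter] at hV
        apply le_antisymm
        · rintro _ ⟨q, hq, rfl⟩
          exact hq.2
        · intro v hv
          obtain ⟨q, hq, rfl⟩ := hV.2 hv
          exact ⟨q, ⟨hq, hv⟩, rfl⟩
      · intro U _
        rfl
    rw [h1, mu_spec p (f x) (f y) (Q.map f) (hx hQ)]
    simp only [map_eq_bot_iff' hQD]

/-- the lifts of a triple -/
def lifts [Finite Γ] (f : Γ →* H) (h k : H) (V : Subgroup H) : Finset (Γ × Γ × Subgroup Γ) :=
  (Set.toFinite {q : Γ × Γ × Subgroup Γ | IsLift f h k V q}).toFinset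

theorem mem_lifts [Finite Γ] {h k : H} {V : Subgroup H} {q : Γ × Γ × Subgroup Γ} :
    q ∈ lifts f h k V ↔ IsLift f h k V q := by
  simp [lifts]

variable (p) in
/-- the commuting pairs with a normalised `p`-subgroup -/
def idx (p : ℕ) (H : Type) [Group H] [Finite H] : Finset (H × H × Subgroup H) :=
  (Set.toFinite {r : H × H × Subgroup H | r.1 * r.2.1 = r.2.1 * r.1 ∧
    r.2.2 ∈ inv p ({r.1, r.2.1} : Set H)}).toFinset

theorem mem_idx [Finite H] {r : H × H × Subgroup H} : r ∈ idx p H ↔
    r.1 * r.2.1 = r.2.1 * r.1 ∧ r.2.2 ∈ inv p ({r.1, r.2.1} : Set H) := by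
  simp [idx]

/-- the sum over the commuting pairs of `Γ` -/
theorem kap_split [Fintype Γ] [Fintype H] : kap p Γ = ∑ r ∈ idx p H, mu p r.1 r.2.1 r.2.2 *
    ∑ q ∈ lifts f r.1 r.2.1 r.2.2, cs ((inv p ({q.1, q.2.1} : Set Γ)).filter
      (fun P => ¬ P ⊓ f.ker = ⊥ ∧ q.2.2 < P)) := by
  set F : Γ × Γ × Subgroup Γ → ℤ := fun q => cs ((inv p ({q.1, q.2.1} : Set Γ)).filter
      (fun P => ¬ P ⊓ f.ker = ⊥ ∧ q.2.2 < P)) with hF
  have hfin : Fintype (Subgroup Γ) := Fintype.ofFinite _
  set good : Γ × Γ × Subgroup Γ → Prop := fun q => q.1 * q.2.1 = q.2.1 * q.1 ∧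
    q.2.2 ∈ (inv p ({q.1, q.2.1} : Set Γ)).filter (fun U => U ⊓ f.ker = ⊥) with hgood
  have h1 : kap p Γ = ∑ q ∈ Finset.univ.filter good,
      mu p (f q.1) (f q.2.1) (q.2.2.map f) * F q := by
    rw [Finset.sum_filter, Fintype.sum_prod_type]
    unfold kap
    refine Finset.sum_congr rfl fun x _ => ?_
    rw [Fintype.sum_prod_type]
    refine Finset.sum_congr rfl fun y _ => ?_
    split_ifs with hc
    · rw [W_split (f := f) x y, ← Finset.sum_filter]
      refine Finset.sum_congr ?_ fun _ _ => rfl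
      ext U
      simp only [Finset.mem_filter, Finset.mem_univ, true_and]
      exact ⟨fun h => ⟨hc, h⟩, fun h => h.2⟩
    · symm
      refine Finset.sum_eq_zero fun U _ => ?_
      rw [if_neg]
      exact fun h => hc h.1
  have h2 : ∀ q ∈ Finset.univ.filter good, ((f q.1, f q.2.1, q.2.2.map f) : H × H × Subgroup H) ∈
      idx p H := by
    rintro ⟨x, y, U⟩ hq
    simp only [hgood, Finset.mem_filter, Finset.mem_univ, true_and, mem_inv] at hq
    rw [mem_idx, mem_inv]
    refine ⟨?_, hq.2.1.1.map f, ?_⟩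
    · dsimp only
      rw [← map_mul, hq.1, map_mul]
    · rintro z (rfl | rfl)
      · dsimp only
        rw [conjSub_map, hq.2.1.2 x (by simp)]
      · dsimp only
        rw [conjSub_map, hq.2.1.2 y (by simp)]
  rw [h1, ← Finset.sum_fiberwise_of_maps_to h2]
  refine Finset.sum_congr rfl fun r hr => ?_
  rw [mem_idx, mem_inv] at hr
  rw [Finset.mul_sum]
  refine Finset.sum_congr ?_ ?_
  · ext q
    obtain ⟨x, y, U⟩ := q
    obtain ⟨h, k, V⟩ := r
    simp only [hgood, Finset.mem_filter, Finset.mem_univ, true_and, mem_inv, mem_lifts,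
      Prod.mk.injEq] at hr ⊢
    constructor
    · rintro ⟨⟨a1, ⟨a2, a3⟩, a4⟩, b1, b2, b3⟩
      exact ⟨b1, b2, a1, a3 x (by simp), a3 y (by simp), a4, b3⟩
    · rintro ⟨fx, fy, comm, nx, ny, inf, map⟩
      dsimp only at fx fy comm nx ny inf map
      refine ⟨⟨comm, ⟨isPGroup_of_map inf (map ▸ hr.2.1), ?_⟩, inf⟩, fx, fy, map⟩
      rintro z (rfl | rfl)
      · exact nx
      · exact ny
  · intro q hq
    rw [mem_lifts] at hq
    rw [hq.fx, hq.fy, hq.map]

end general

section wreath

variable {G H X : Type} [Group G] [Group H] [MulAction H X]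

/-- the homomorphism given by a cocycle -/
def homOf {T : Type} [Group T] [MulAction T X] (π : T →* H)
    (hπ : ∀ (t : T) (z : X), t • z = π t • z) (a : Coc T X G) : T →* WrX G H X where
  toFun t := ⟨fun z => a.1 t ((π t)⁻¹ • z), π t⟩
  map_one' := by
    refine SemidirectProduct.ext ?_ ?_
    · funext z
      exact a.one _
    · exact map_one π
  map_mul' s t := by
    refine SemidirectProduct.ext ?_ ?_
    · funext z
      rw [SemidirectProduct.mul_left, Pi.mul_apply, aut_apply]
      change a.1 (s * t) ((π (s * t))⁻¹ • z) = a.1 s ((π s)⁻¹ • z) * a.1 t ((π t)⁻¹ • (π s)⁻¹ • z)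
      rw [a.2, map_mul, mul_inv_rev, mul_smul, hπ, smul_inv_smul]
    · exact map_mul π s t

theorem coh_homOf {T : Type} [Group T] [MulAction T X] (π : T →* H)
    (hπ : ∀ (t : T) (z : X), t • z = π t • z) (a : Coc T X G) : coh (homOf π hπ a) = a.1 := by
  funext t z
  change a.1 t ((π t)⁻¹ • (π t • z)) = a.1 t z
  rw [inv_smul_smul]

theorem right_homOf {T : Type} [Group T] [MulAction T X] (π : T →* H)
    (hπ : ∀ (t : T) (z : X), t • z = π t • z) (a : Coc T X G) :
    (SemidirectProduct.rightHom).comp (homOf π hπ a) = π := rfl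

theorem isCoc_coh {T : Type} [Group T] [MulAction T X] (φ : T →* WrX G H X)
    (hφ : ∀ (t : T) (z : X), t • z = (φ t).right • z) : IsCoc (coh φ) := by
  intro s t z
  unfold coh
  rw [map_mul, cc_mul, hφ]

theorem homOf_coh {T : Type} [Group T] [MulAction T X] (π : T →* H)
    (hπ : ∀ (t : T) (z : X), t • z = π t • z) (φ : T →* WrX G H X)
    (hφ : (SemidirectProduct.rightHom).comp φ = π) (hφ' : IsCoc (coh φ)) :
    homOf π hπ ⟨coh φ, hφ'⟩ = φ := by
  have h0 : ∀ t, (φ t).right = π t := fun t => DFunLike.congr_fun hφ t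
  refine MonoidHom.ext fun t => SemidirectProduct.ext ?_ (h0 t).symm
  funext z
  change (φ t).left ((φ t).right • (π t)⁻¹ • z) = (φ t).left z
  rw [h0, smul_inv_smul]

/-- the number of the orbits of the subgroup generated by `h`, `k` and `V` -/
def norb (X : Type) [MulAction H X] (h k : H) (V : Subgroup H) : ℕ :=
  Nat.card (MulAction.orbitRel.Quotient (Subgroup.closure (({h, k} : Set H) ∪ V)) X)

theorem norb_eq {h k : H} {V : Subgroup H} (hhk : h * k = k * h) (hh : conjSub h V = V)
    (hk : conjSub k V = V) [MulAction (tor h k hhk V hh hk) X]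
    (hT : ∀ (t : tor h k hhk V hh hk) (z : X), t • z = pr h k hhk V hh hk t • z) :
    Nat.card (Om (tor h k hhk V hh hk) X) = norb X h k V := by
  unfold norb Om MulAction.orbitRel.Quotient
  have e : MulAction.orbitRel (tor h k hhk V hh hk) X =
      MulAction.orbitRel (Subgroup.closure (({h, k} : Set H) ∪ V)) X := by
    have hcl : ∀ t : tor h k hhk V hh hk, pr h k hhk V hh hk t ∈
        Subgroup.closure (({h, k} : Set H) ∪ V) := by
      intro t
      have h1 := mem_tor.mp t.2
      have h2 : pr h k hhk V hh hk t = (t.1.1 * (evh h k hhk t.1.2)⁻¹) * evh h k hhk t.1.2 := by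
        rw [inv_mul_cancel_right]
        rfl
      rw [h2]
      have m1 : h ∈ ({h, k} : Set H) ∪ V := Or.inl (Or.inl rfl)
      have m2 : k ∈ ({h, k} : Set H) ∪ V := Or.inl (Or.inr rfl)
      refine Subgroup.mul_mem _ (Subgroup.subset_closure (Or.inr h1)) ?_
      exact Subgroup.mul_mem _ (Subgroup.zpow_mem _ (Subgroup.subset_closure m1) _)
        (Subgroup.zpow_mem _ (Subgroup.subset_closure m2) _)
    have hcl' : ∀ w ∈ Subgroup.closure (({h, k} : Set H) ∪ V), ∃ t : tor h k hhk V hh hk,
        pr h k hhk V hh hk t = w := by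
      intro w hw
      have h1 : Subgroup.closure (({h, k} : Set H) ∪ V) ≤ (pr h k hhk V hh hk).range := by
        rw [Subgroup.closure_le]
        rintro z ((rfl | rfl) | hz)
        · exact ⟨t1 z k hhk V hh hk, rfl⟩
        · exact ⟨t2 h z hhk V hh hk, rfl⟩
        · refine ⟨⟨(z, 1), ?_⟩, rfl⟩
          rw [mem_tor, map_one, inv_one, mul_one]
          exact hz
      exact h1 hw
    refine Setoid.ext fun z w => ?_
    rw [MulAction.orbitRel_apply, MulAction.orbitRel_apply, MulAction.mem_orbit_iff,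
      MulAction.mem_orbit_iff]
    constructor
    · rintro ⟨t, ht⟩
      exact ⟨⟨_, hcl t⟩, by rw [← ht, hT]; rfl⟩
    · rintro ⟨⟨v, hv⟩, hv'⟩
      obtain ⟨t, ht⟩ := hcl' v hv
      refine ⟨t, ?_⟩
      rw [hT, ht]
      exact hv'
  rw [e]

variable [Fintype G] [Fintype H] [Fintype X] {p : ℕ} [hp : Fact p.Prime]

/-- the sum over the lifts of a triple -/
theorem sum_lifts (E : ℤ) (hE : kap p G = Nat.card G * E) {h k : H} {V : Subgroup H}
    (hhk : h * k = k * h) (hV : V ∈ inv p ({h, k} : Set H)) :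
    ∑ q ∈ lifts (SemidirectProduct.rightHom : WrX G H X →* H) h k V,
      cs ((inv p ({q.1, q.2.1} : Set (WrX G H X))).filter
        (fun P => ¬ P ⊓ (SemidirectProduct.rightHom).ker = ⊥ ∧ q.2.2 < P)) =
      (Nat.card G : ℤ) ^ Nat.card X * E ^ norb X h k V := by
  have hV' := mem_inv.mp hV
  have hh : conjSub h V = V := hV'.2 h (by simp)
  have hk : conjSub k V = V := hV'.2 k (by simp)
  let act : MulAction (tor h k hhk V hh hk) X := MulAction.compHom X (pr h k hhk V hh hk)
  have hT : ∀ (t : tor h k hhk V hh hk) (z : X), t • z = pr h k hhk V hh hk t • z :=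
    fun _ _ => rfl
  obtain ⟨hfin, hsum⟩ := sum_coc (T := tor h k hhk V hh hk) (X := X) (G := G) (p := p) E hE
    (fun x => by
      refine sum_stab hV'.1 (MulAction.stabilizer (tor h k hhk V hh hk) x) ?_ G
      rw [MulAction.index_stabilizer]
      exact (Set.ncard_pos (Set.toFinite _)).mpr ⟨x, MulAction.mem_orbit_self x⟩ |>.ne')
  have hfin' : Fintype (Coc (tor h k hhk V hh hk) X G) := Fintype.ofFinite _
  rw [← norb_eq (X := X) hhk hh hk hT, ← hsum]
  symm
  refine Finset.sum_bij (fun a _ => toLift hhk hh hk (homOf (pr h k hhk V hh hk) hT a)) ?_ ?_ ?_ ?_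
  · intro a _
    rw [mem_lifts]
    exact isLift_toLift hhk hh hk _ (right_homOf _ hT a)
  · intro a _ b _ hab
    have h1 := toLift_inj hhk hh hk (right_homOf _ hT a) (right_homOf _ hT b) hab
    apply Subtype.ext
    rw [← coh_homOf (pr h k hhk V hh hk) hT a, h1, coh_homOf]
  · intro q hq
    rw [mem_lifts] at hq
    obtain ⟨φ, h1, h2⟩ := exists_toLift hhk hh hk hq
    have h0 : ∀ t, (φ t).right = pr h k hhk V hh hk t := fun t => DFunLike.congr_fun h1 t
    have h3 : IsCoc (coh φ) := isCoc_coh φ fun t z => by rw [hT, h0]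
    refine ⟨⟨coh φ, h3⟩, Finset.mem_univ _, ?_⟩
    rw [homOf_coh (pr h k hhk V hh hk) hT φ h1 h3, h2]
  · intro a _
    set φ := homOf (pr h k hhk V hh hk) hT a with hφ
    have hlift := isLift_toLift hhk hh hk φ (right_homOf _ hT a)
    have hU : (toLift hhk hh hk φ).2.2 ∈
        inv p ({(toLift hhk hh hk φ).1, (toLift hhk hh hk φ).2.1} : Set (WrX G H X)) := by
      rw [mem_inv]
      refine ⟨isPGroup_of_map hlift.inf (by rw [hlift.map]; exact hV'.1), ?_⟩
      rintro z (rfl | rfl)
      · exact hlift.nx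
      · exact hlift.ny
    rw [cs_upper hU hlift.inf]
    have h4 : bas p (({(toLift hhk hh hk φ).1, (toLift hhk hh hk φ).2.1} : Set (WrX G H X)) ∪
        (toLift hhk hh hk φ).2.2) = bas p (Set.range φ) := by
      ext Q
      rw [mem_bas, mem_bas]
      refine and_congr_right fun _ => and_congr_left fun _ => ?_
      simp only [conjSub_eq_iff]
      constructor
      · rintro h5 _ ⟨t, rfl⟩
        obtain ⟨s, hs, hst⟩ := tor_decomp t
        have m1 : φ (t1 h k hhk V hh hk) ∈ Subgroup.normalizer (Q : Set (WrX G H X)) :=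
          h5 _ (Or.inl (Or.inl rfl))
        have m2 : φ (t2 h k hhk V hh hk) ∈ Subgroup.normalizer (Q : Set (WrX G H X)) :=
          h5 _ (Or.inl (Or.inr rfl))
        have m3 : φ s ∈ Subgroup.normalizer (Q : Set (WrX G H X)) := h5 _ (Or.inr ⟨s, hs, rfl⟩)
        rw [hst]
        simp only [map_mul, map_zpow]
        exact Subgroup.mul_mem _ m3 (Subgroup.mul_mem _ (Subgroup.zpow_mem _ m1 _)
          (Subgroup.zpow_mem _ m2 _))
      · intro h5 z hz
        rcases hz with (hz | hz) | hz
        · rw [hz]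
          exact h5 _ ⟨_, rfl⟩
        · rw [hz]
          exact h5 _ ⟨_, rfl⟩
        · obtain ⟨s, _, hs⟩ := hz
          exact h5 z ⟨s, hs⟩
    rw [h4, cs_lower φ (fun t z => by rw [hT]; rfl), hφ, coh_homOf]

/-- the polynomial of the permutation group -/
def wpoly (p : ℕ) (H X : Type) [Group H] [Finite H] [MulAction H X] : Polynomial ℤ :=
  ∑ r ∈ idx p H,
  Polynomial.C (mu p r.1 r.2.1 r.2.2) * Polynomial.X ^ norb X r.1 r.2.1 r.2.2

theorem kap_wrX (E : ℤ) (hE : kap p G = Nat.card G * E) [Fintype (WrX G H X)] :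
    kap p (WrX G H X) = (Nat.card G : ℤ) ^ Nat.card X * (wpoly p H X).eval E := by
  rw [kap_split (f := (SemidirectProduct.rightHom : WrX G H X →* H)), wpoly,
    Polynomial.eval_finsetSum, Finset.mul_sum]
  refine Finset.sum_congr rfl fun r hr => ?_
  rw [mem_idx] at hr
  rw [sum_lifts E hE hr.1 hr.2]
  simp only [Polynomial.eval_mul, Polynomial.eval_C, Polynomial.eval_pow, Polynomial.eval_X]
  ring

/-- **the formula for the wreath product** -/
theorem altK_wrX : (Nat.card H : ℤ) * altK p (WrX G H X) = (wpoly p H X).eval (altK p G) := by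
  have : Fintype (WrX G H X) := Fintype.ofFinite _
  have h1 := card_mul_altK (p := p) (G := WrX G H X)
  rw [kap_wrX (altK p G) (card_mul_altK (p := p) (G := G)).symm, card_WrX] at h1
  have h0 : ((Nat.card G : ℤ)) ^ Nat.card X ≠ 0 := by
    have : (Nat.card G : ℤ) ≠ 0 := by exact_mod_cast Nat.card_pos.ne'
    exact pow_ne_zero _ this
  apply mul_left_cancel₀ h0
  push_cast at h1
  linear_combination h1

end wreath

section colour

variable {H X : Type} [Group H] [MulAction H X]

/-- the stabiliser of a colouring `c` of `X` in the group `H` -/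
def stabC (H : Type) {X C : Type} [Group H] [MulAction H X] (c : X → C) : Subgroup H where
  carrier := {h | ∀ x, c (h • x) = c x}
  one_mem' := fun x => by rw [one_smul]
  mul_mem' := fun {g h} hg hh x => by rw [mul_smul, hg, hh]
  inv_mem' := fun {g} hg x => by
    have := hg (g⁻¹ • x)
    rw [smul_inv_smul] at this
    exact this.symm

theorem mem_stabC {C : Type} {c : X → C} {h : H} : h ∈ stabC H c ↔ ∀ x, c (h • x) = c x := Iff.rfl

/-- the number of the colourings fixed by a subgroup -/
theorem card_colour [Finite X] (K : Subgroup H) (m : ℕ) :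
    Nat.card {c : X → Fin m // K ≤ stabC H c} =
      m ^ Nat.card (MulAction.orbitRel.Quotient K X) := by
  have hΩ : Finite (MulAction.orbitRel.Quotient K X) := Quotient.finite _
  have e : {c : X → Fin m // K ≤ stabC H c} ≃ (MulAction.orbitRel.Quotient K X → Fin m) :=
    { toFun := fun c o => c.1 (bp (T := K) o)
      invFun := fun d => ⟨fun z => d (cl K z), fun h hh z => by
        have := cl_smul (⟨h, hh⟩ : K) z
        exact congrArg d this⟩
      left_inv := fun c => by
        apply Subtype.ext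
        funext z
        have h1 := tr_smul (T := K) z
        have h2 := c.2 (tr K z).2 (bp (T := K) (cl K z))
        have h3 : ((tr K z : K) : H) • bp (T := K) (cl K z) = z := h1
        rw [h3] at h2
        exact h2.symm
      right_inv := fun d => by
        funext o
        change d (cl K (bp (T := K) o)) = d o
        rw [cl_bp] }
  rw [Nat.card_congr e, Nat.card_fun, Nat.card_eq_fintype_card (α := Fin m), Fintype.card_fin]

variable [Fintype H] [Fintype X] {p : ℕ} [hp : Fact p.Prime]

/-- the alternating sum for a subgroup in terms of the Möbius function -/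
theorem W_sub (K : Subgroup H) (h k : K) : W p ({h, k} : Set K) =
    ∑ V ∈ (inv p ({(h : H), (k : H)} : Set H)).filter (· ≤ K), mu p (h : H) k V := by
  have hb : ⊥ ∈ (inv p ({(h : H), (k : H)} : Set H)).filter (· ≤ K) := by
    rw [Finset.mem_filter]
    exact ⟨bot_mem _, bot_le⟩
  rw [← cs_hall hb (mu p (h : H) k)]
  · rw [W_cs]
    refine cs_galois (fun V => V.map K.subtype) (fun V => V.subgroupOf K) ?_ ?_ ?_
    · intro V hV
      rw [Finset.mem_filter, mem_inv] at hV
      rw [Finset.mem_filter, Finset.mem_filter, mem_inv]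
      refine ⟨⟨⟨hV.1.1.map _, ?_⟩, ?_⟩, ?_⟩
      · rintro z (rfl | rfl)
        · have := conjSub_map K.subtype h V
          rw [hV.1.2 h (by simp)] at this
          exact this
        · have := conjSub_map K.subtype k V
          rw [hV.1.2 k (by simp)] at this
          exact this
      · rintro _ ⟨v, _, rfl⟩
        exact v.2
      · rw [bot_lt_iff_ne_bot]
        intro h1
        rw [Subgroup.map_eq_bot_iff_of_injective _ K.subtype_injective] at h1
        exact hV.2.ne' h1
    · intro V hV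
      rw [Finset.mem_filter, Finset.mem_filter, mem_inv] at hV
      rw [Finset.mem_filter, mem_inv]
      refine ⟨⟨hV.1.1.1.comap_of_injective _ K.subtype_injective, ?_⟩, ?_⟩
      · rintro z (rfl | rfl)
        · exact conjSub_comap K.subtype (hV.1.1.2 _ (by simp))
        · exact conjSub_comap K.subtype (hV.1.1.2 _ (by simp))
      · rw [bot_lt_iff_ne_bot]
        intro h1
        rw [Subgroup.subgroupOf_eq_bot] at h1
        apply hV.2.ne'
        rw [eq_bot_iff]
        intro v hv
        exact (disjoint_iff.mp h1).le ⟨hv, hV.1.2 hv⟩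
    · intro V _ W' _
      exact Subgroup.map_le_iff_le_comap
  · intro Q hQ
    rw [Finset.mem_filter] at hQ
    rw [← mu_spec p (h : H) k Q hQ.1]
    refine Finset.sum_congr ?_ fun _ _ => rfl
    ext U
    simp only [Finset.mem_filter]
    constructor
    · rintro ⟨⟨a, _⟩, b⟩
      exact ⟨a, b⟩
    · rintro ⟨a, b⟩
      exact ⟨⟨a, b.trans hQ.2⟩, b⟩

/-- the sum over the commuting pairs of a subgroup -/
theorem kap_sub (K : Subgroup H) [Fintype K] : kap p K =
    ∑ r ∈ idx p H, if (r.1 ∈ K ∧ r.2.1 ∈ K) ∧ r.2.2 ≤ K then mu p r.1 r.2.1 r.2.2 else 0 := by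
  have hfin : Fintype (Subgroup H) := Fintype.ofFinite _
  have e : idx p H = Finset.univ.filter (fun r : H × H × Subgroup H => r.1 * r.2.1 = r.2.1 * r.1 ∧
    r.2.2 ∈ inv p ({r.1, r.2.1} : Set H)) := by
    ext r
    rw [mem_idx]
    simp
  rw [e, Finset.sum_filter, Fintype.sum_prod_type]
  have h1 : ∀ x : H, ∑ y : H × Subgroup H,
      (if x * y.1 = y.1 * x ∧ y.2 ∈ inv p ({x, y.1} : Set H) then
        (if (x ∈ K ∧ y.1 ∈ K) ∧ y.2 ≤ K then mu p x y.1 y.2 else 0) else 0) =
      if x ∈ K then ∑ y : H, (if y ∈ K then (if x * y = y * x then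
        ∑ V ∈ (inv p ({x, y} : Set H)).filter (· ≤ K), mu p x y V else 0) else 0) else 0 := by
    intro x
    rw [Fintype.sum_prod_type]
    split_ifs with hx
    · refine Finset.sum_congr rfl fun y _ => ?_
      split_ifs with hy hxy
      · rw [← Finset.sum_filter, ← Finset.sum_filter]
        refine Finset.sum_congr ?_ fun _ _ => rfl
        ext V
        simp only [Finset.mem_filter, Finset.mem_univ, true_and]
        constructor
        · rintro ⟨⟨_, a⟩, b⟩
          exact ⟨a, b.2⟩
        · rintro ⟨a, b⟩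
          exact ⟨⟨hxy, a⟩, ⟨hx, hy⟩, b⟩
      · refine Finset.sum_eq_zero fun V _ => ?_
        rw [if_neg (fun h => hxy h.1)]
      · refine Finset.sum_eq_zero fun V _ => ?_
        split_ifs with h2 h3
        · exact absurd h3.1.2 hy
        · rfl
        · rfl
    · refine Finset.sum_eq_zero fun y _ => Finset.sum_eq_zero fun V _ => ?_
      split_ifs with h2 h3
      · exact absurd h3.1.1 hx
      · rfl
      · rfl
  dsimp only
  rw [Finset.sum_congr rfl fun x _ => h1 x]
  unfold kap
  have h2 : ∀ F : H → ℤ, ∑ x : H, (if x ∈ K then F x else 0) = ∑ x : K, F x := by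
    intro F
    rw [← Finset.sum_filter]
    exact Finset.sum_subtype _ (by simp) F
  rw [h2]
  refine Finset.sum_congr rfl fun x _ => ?_
  rw [h2]
  refine Finset.sum_congr rfl fun y _ => ?_
  have h3 : (x : H) * y = y * x ↔ x * y = y * x := by
    rw [← Subgroup.coe_mul, ← Subgroup.coe_mul, Subtype.ext_iff]
  by_cases hc : x * y = y * x
  · rw [if_pos hc, if_pos (h3.mpr hc), W_sub]
  · rw [if_neg hc, if_neg (fun h => hc (h3.mp h))]

/-- **the values of the polynomial at the natural numbers** -/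
theorem wpoly_nat (m : ℕ) : (wpoly p H X).eval (m : ℤ) =
    ∑ c : X → Fin m, (Nat.card (stabC H c) : ℤ) * altK p (stabC H c) := by
  have h1 : ∀ c : X → Fin m, (Nat.card (stabC H c) : ℤ) * altK p (stabC H c) =
      ∑ r ∈ idx p H, if (r.1 ∈ stabC H c ∧ r.2.1 ∈ stabC H c) ∧ r.2.2 ≤ stabC H c then
        mu p r.1 r.2.1 r.2.2 else 0 := by
    intro c
    rw [card_mul_altK, kap_sub]
  rw [Finset.sum_congr rfl fun c _ => h1 c, Finset.sum_comm, wpoly, Polynomial.eval_finsetSum]
  refine Finset.sum_congr rfl fun r _ => ?_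
  simp only [Polynomial.eval_mul, Polynomial.eval_C, Polynomial.eval_pow, Polynomial.eval_X]
  have h2 := card_colour (H := H) (X := X) (Subgroup.closure (({r.1, r.2.1} : Set H) ∪ r.2.2)) m
  have h3 : ∀ c : X → Fin m, Subgroup.closure (({r.1, r.2.1} : Set H) ∪ r.2.2) ≤ stabC H c ↔
      (r.1 ∈ stabC H c ∧ r.2.1 ∈ stabC H c) ∧ r.2.2 ≤ stabC H c := by
    intro c
    rw [Subgroup.closure_le, Set.union_subset_iff, Set.insert_subset_iff, Set.singleton_subset_iff]
    rfl
  rw [← Finset.sum_filter, Finset.sum_const, nsmul_eq_mul, mul_comm]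
  congr 1
  unfold norb
  rw [← Nat.cast_pow, ← h2, Nat.card_eq_fintype_card, Fintype.card_subtype]
  congr 2
  ext c
  simp only [Finset.mem_filter, Finset.mem_univ, true_and]
  exact h3 c

end colour

end Pool.Agent.W2helper32.KR
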