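import Pool.Agent.W2helper32.KR.Euler
import Pool.Agent.K3h96.IN.S1
import Pool.Agent.K3h18.IN.Gal

/-!
# Irreducible characters of direct powers and their extensions to wreath products
-/

set_option autoImplicit false

open scoped BigOperators Classical

noncomputable section

namespace Pool.Agent.W2helper32.KR

open Pool.Agent.Helper884 Pool.Agent.K3h3.KB Pool.Agent.K3h3.MK Pool.Agent.K3h83.IN
open Pool.Agent.H254R3.IN (IsIrr mem_Irr)
open IC (Irr)

/-- the sum of the squares of the degrees -/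
theorem sum_ndeg_sq (G : Type) [Group G] [Fintype G] :
    ∑ χ ∈ Irr G, ndeg χ ^ 2 = Nat.card G := by
  have h := Pool.Agent.K3h3.KT.reg (1 : G)
  rw [if_pos rfl] at h
  have h1 : ((∑ χ ∈ Irr G, ndeg χ ^ 2 : ℕ) : ℂ) = (Nat.card G : ℂ) := by
    rw [← h]
    push_cast
    refine Finset.sum_congr rfl fun χ hχ => ?_
    rw [ndeg_cast (mem_Irr.mp hχ)]
    ring
  exact_mod_cast h1

/-- the irreducible characters of a direct power -/
theorem irr_pow (G X : Type) [Group G] [Fintype G] [Fintype X] :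
    Irr (X → G) = (Fintype.piFinset fun _ : X => Irr G).image bt := by
  symm
  have hsub : (Fintype.piFinset fun _ : X => Irr G).image bt ⊆ Irr (X → G) := by
    intro χ hχ
    obtain ⟨c, hc, rfl⟩ := Finset.mem_image.mp hχ
    rw [Fintype.mem_piFinset] at hc
    exact mem_Irr.mpr (bt_irr fun x => mem_Irr.mp (hc x))
  have hinj : Set.InjOn (bt (I := X) (G := G)) (Fintype.piFinset fun _ : X => Irr G) := by
    intro c hc d hd h
    rw [Finset.mem_coe, Fintype.mem_piFinset] at hc hd
    exact bt_inj (fun x => mem_Irr.mp (hc x)) (fun x => mem_Irr.mp (hd x)) h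
  by_contra hne
  obtain ⟨χ, hχ, hχ'⟩ := Finset.exists_of_ssubset (Finset.ssubset_iff_subset_ne.mpr ⟨hsub, hne⟩)
  have h1 : ∑ χ ∈ (Fintype.piFinset fun _ : X => Irr G).image bt, ndeg χ ^ 2 =
      Nat.card (X → G) := by
    rw [Finset.sum_image hinj, Nat.card_fun, ← sum_ndeg_sq G,
      Nat.card_eq_fintype_card (α := X), ← Finset.card_univ, ← Finset.prod_const,
      Finset.prod_univ_sum]
    refine Finset.sum_congr rfl fun c hc => ?_
    rw [Fintype.mem_piFinset] at hc
    rw [ndeg_bt fun x => mem_Irr.mp (hc x), Finset.prod_pow]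
  have h2 := sum_ndeg_sq (X → G)
  have h3 : ∑ χ ∈ (Fintype.piFinset fun _ : X => Irr G).image bt, ndeg χ ^ 2 <
      ∑ χ ∈ Irr (X → G), ndeg χ ^ 2 := by
    refine Finset.sum_lt_sum_of_subset hsub hχ hχ' ?_ (fun _ _ _ => Nat.zero_le _)
    have := ndeg_pos (mem_Irr.mp hχ)
    positivity
  omega

/-! ### matrix coefficients -/

section mat

variable {G : Type} [Group G]

theorem exists_mat (χ : G → ℂ) (h : IsIrr χ) : ∃ (n : ℕ) (R : G →* Matrix (Fin n) (Fin n) ℂ),
    ∀ g, (R g).trace = χ g := by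
  obtain ⟨V, _, _, _, ρ, _, rfl⟩ := h
  let b := Module.finBasis ℂ V
  refine ⟨Module.finrank ℂ V, (MonoidHomClass.toMonoidHom (LinearMap.toMatrixAlgEquiv b)).comp ρ, ?_⟩
  intro g
  change (LinearMap.toMatrixAlgEquiv b (ρ g)).trace = LinearMap.trace ℂ V (ρ g)
  rw [LinearMap.trace_eq_matrix_trace ℂ b]
  rfl

/-- the degree of a matrix representation with character `χ` -/
def md (χ : G → ℂ) : ℕ := if h : IsIrr χ then (exists_mat χ h).choose else 0

/-- the matrix coefficients of a matrix representation with character `χ` -/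
def mc (χ : G → ℂ) (g : G) (i j : ℕ) : ℂ :=
  if h : IsIrr χ then
    if hi : i < (exists_mat χ h).choose ∧ j < (exists_mat χ h).choose then
      (exists_mat χ h).choose_spec.choose g ⟨i, hi.1⟩ ⟨j, hi.2⟩
    else 0
  else 0

theorem mc_eq {χ : G → ℂ} (h : IsIrr χ) (g : G) {i j : ℕ}
    (hi : i < (exists_mat χ h).choose) (hj : j < (exists_mat χ h).choose) :
    mc χ g i j = (exists_mat χ h).choose_spec.choose g ⟨i, hi⟩ ⟨j, hj⟩ := by
  unfold mc
  rw [dif_pos h, dif_pos ⟨hi, hj⟩]

theorem md_eq {χ : G → ℂ} (h : IsIrr χ) : md χ = (exists_mat χ h).choose := by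
  unfold md
  rw [dif_pos h]

theorem mc_one {χ : G → ℂ} (h : IsIrr χ) {i j : ℕ} (hi : i < md χ) (hj : j < md χ) :
    mc χ 1 i j = if i = j then 1 else 0 := by
  rw [md_eq h] at hi hj
  rw [mc_eq h 1 hi hj, map_one, Matrix.one_apply]
  simp only [Fin.mk.injEq]

theorem mc_mul {χ : G → ℂ} (h : IsIrr χ) (g g' : G) {i k : ℕ} (hi : i < md χ) (hk : k < md χ) :
    mc χ (g * g') i k = ∑ j ∈ Finset.range (md χ), mc χ g i j * mc χ g' j k := by
  rw [md_eq h] at hi hk ⊢
  rw [mc_eq h _ hi hk, map_mul, Matrix.mul_apply, Finset.sum_range]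
  refine Finset.sum_congr rfl fun j _ => ?_
  rw [mc_eq h g hi j.2, mc_eq h g' j.2 hk]

theorem mc_trace {χ : G → ℂ} (h : IsIrr χ) (g : G) :
    ∑ i ∈ Finset.range (md χ), mc χ g i i = χ g := by
  rw [md_eq h, Finset.sum_range, ← (exists_mat χ h).choose_spec.choose_spec g, Matrix.trace]
  refine Finset.sum_congr rfl fun j _ => ?_
  rw [mc_eq h g j.2 j.2]
  rfl

end mat

/-! ### the extension -/

section ext

variable {G H X : Type} [Group G] [Group H] [MulAction H X] [Fintype X]

/-- the inertia group of a colouring in the wreath product -/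
def inr' (G : Type) [Group G] {H X C : Type} [Group H] [MulAction H X] (c : X → C) :
    Subgroup (WrX G H X) :=
  (stabC H c).comap SemidirectProduct.rightHom

/-- the index set -/
abbrev ix (c : X → G → ℂ) : Finset (X → ℕ) := Fintype.piFinset fun x => Finset.range (md (c x))

theorem mem_ix {c : X → G → ℂ} {a : X → ℕ} : a ∈ ix c ↔ ∀ x, a x < md (c x) := by
  rw [Fintype.mem_piFinset]
  simp only [Finset.mem_range]

/-- the matrix of an element of the inertia group -/
def em (c : X → G → ℂ) (γ : WrX G H X) (a b : X → ℕ) : ℂ :=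
  ∏ x, mc (c x) (γ.left x) (a x) (b (γ.right⁻¹ • x))

theorem em_one {c : X → G → ℂ} (hc : ∀ x, IsIrr (c x)) {a b : X → ℕ} (ha : a ∈ ix c)
    (hb : b ∈ ix c) : em c (1 : WrX G H X) a b = if a = b then 1 else 0 := by
  rw [mem_ix] at ha hb
  unfold em
  simp only [SemidirectProduct.one_left, SemidirectProduct.one_right, inv_one, one_smul,
    Pi.one_apply]
  rw [Finset.prod_congr rfl fun x _ => mc_one (hc x) (ha x) (hb x)]
  split_ifs with h
  · subst h
    simp
  · obtain ⟨x, hx⟩ := Function.ne_iff.mp h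
    exact Finset.prod_eq_zero (Finset.mem_univ x) (if_neg hx)

theorem em_mul {c : X → G → ℂ} (hc : ∀ x, IsIrr (c x)) {γ δ : WrX G H X}
    (hγ : ∀ x, c (γ.right • x) = c x) (hδ : ∀ x, c (δ.right • x) = c x) {a d : X → ℕ}
    (ha : a ∈ ix c) (hd : d ∈ ix c) :
    em c (γ * δ) a d = ∑ b ∈ ix c, em c γ a b * em c δ b d := by
  rw [mem_ix] at ha hd
  have hγ' : ∀ x, c (γ.right⁻¹ • x) = c x := fun x => by
    rw [← hγ, smul_inv_smul]
  have hδ' : ∀ x, c (δ.right⁻¹ • x) = c x := fun x => by
    rw [← hδ, smul_inv_smul]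
  -- reindex the second product
  have h1 : ∀ b : X → ℕ, em c δ b d =
      ∏ x, mc (c x) (δ.left (γ.right⁻¹ • x)) (b (γ.right⁻¹ • x))
        (d ((γ.right * δ.right)⁻¹ • x)) := by
    intro b
    unfold em
    refine (Fintype.prod_equiv (MulAction.toPerm γ.right⁻¹) _ _ fun x => ?_).symm
    rw [MulAction.toPerm_apply, hγ', mul_inv_rev, mul_smul]
  have h2 : ∀ b : X → ℕ, em c γ a b * em c δ b d =
      ∏ x, (mc (c x) (γ.left x) (a x) (b (γ.right⁻¹ • x)) *
        mc (c x) (δ.left (γ.right⁻¹ • x)) (b (γ.right⁻¹ • x)) (d ((γ.right * δ.right)⁻¹ • x))) := by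
    intro b
    rw [h1, Finset.prod_mul_distrib]
    rfl
  -- reindex the sum
  have h3 : ∑ b ∈ ix c, em c γ a b * em c δ b d =
      ∑ b ∈ ix c, ∏ x, (mc (c x) (γ.left x) (a x) (b x) *
        mc (c x) (δ.left (γ.right⁻¹ • x)) (b x) (d ((γ.right * δ.right)⁻¹ • x))) := by
    refine Finset.sum_bij' (fun b _ => fun x => b (γ.right⁻¹ • x)) (fun b _ => fun x => b (γ.right • x))
      ?_ ?_ ?_ ?_ ?_
    · intro b hb
      rw [mem_ix] at hb ⊢
      intro x
      rw [← hγ' x]
      exact hb _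
    · intro b hb
      rw [mem_ix] at hb ⊢
      intro x
      rw [← hγ x]
      exact hb _
    · intro b _
      funext x
      exact congrArg b (inv_smul_smul _ _)
    · intro b _
      funext x
      exact congrArg b (smul_inv_smul _ _)
    · intro b _
      exact h2 b
  rw [h3, ← Finset.prod_univ_sum (fun x => Finset.range (md (c x))) fun x j =>
    mc (c x) (γ.left x) (a x) j *
        mc (c x) (δ.left (γ.right⁻¹ • x)) j (d ((γ.right * δ.right)⁻¹ • x))]
  unfold em
  refine Finset.prod_congr rfl fun x _ => ?_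
  have hdx : d ((γ.right * δ.right)⁻¹ • x) < md (c x) := by
    have := hd ((γ.right * δ.right)⁻¹ • x)
    rwa [mul_inv_rev, mul_smul, hδ', hγ', ← mul_smul, ← mul_inv_rev] at this
  rw [← mc_mul (hc x) _ _ (ha x) hdx]
  rfl

theorem em_trace {c : X → G → ℂ} (hc : ∀ x, IsIrr (c x)) (f : X → G) :
    ∑ a ∈ ix c, em c (SemidirectProduct.inl f : WrX G H X) a a = bt c f := by
  unfold em bt
  simp only [SemidirectProduct.left_inl, SemidirectProduct.right_inl, inv_one, one_smul]
  rw [← Finset.prod_univ_sum (fun x => Finset.range (md (c x))) fun x j =>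
    mc (c x) (f x) j j]
  exact Finset.prod_congr rfl fun x _ => mc_trace (hc x) (f x)

/-- the matrix representation of the inertia group -/
def eM {c : X → G → ℂ} (hc : ∀ x, IsIrr (c x)) : inr' G (H := H) c →* Matrix (ix c) (ix c) ℂ where
  toFun γ := Matrix.of fun a b => em c (γ : WrX G H X) a b
  map_one' := by
    ext a b
    rw [Matrix.of_apply, Matrix.one_apply]
    change em c (1 : WrX G H X) a b = _
    rw [em_one hc a.2 b.2]
    simp only [Subtype.ext_iff]
  map_mul' γ δ := by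
    ext a b
    rw [Matrix.mul_apply, Matrix.of_apply, Subgroup.coe_mul, em_mul hc γ.2 δ.2 a.2 b.2]
    simp only [Matrix.of_apply]
    exact Finset.sum_subtype _ (fun _ => Iff.rfl) _

/-- the extension of the outer product of the `c x` to the inertia group -/
def eR {c : X → G → ℂ} (hc : ∀ x, IsIrr (c x)) :
    Representation ℂ (inr' G (H := H) c) (ix c → ℂ) :=
  (MonoidHomClass.toMonoidHom (Matrix.toLinAlgEquiv' (R := ℂ) (n := ix c))).comp (eM hc)

theorem eR_char {c : X → G → ℂ} (hc : ∀ x, IsIrr (c x)) (γ : inr' G (H := H) c) :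
    (eR hc).character γ = ∑ a ∈ ix c, em c (γ : WrX G H X) a a := by
  change LinearMap.trace ℂ _ (Matrix.toLin' (eM hc γ)) = _
  rw [LinearMap.trace_eq_matrix_trace ℂ (Pi.basisFun ℂ (ix c)), ← Matrix.toLin_eq_toLin',
    LinearMap.toMatrix_toLin, Matrix.trace]
  exact (Finset.sum_subtype _ (fun _ => Iff.rfl) (fun a => em c (γ : WrX G H X) a a)).symm

end ext

end Pool.Agent.W2helper32.KR
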