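import Pool.Agent.W2helper32.KR.Zwr
import Pool.Agent.Y63.KR.Chi

/-!
# The Knörr-Robinson conjecture and wreath products
-/

set_option autoImplicit false
set_option linter.style.haveILetI false
set_option linter.unusedSectionVars false

open scoped BigOperators Classical

noncomputable section

namespace Pool.Agent.W2helper32.KR

open Pool.Agent.Helper884 Pool.Agent.K3h3.KB
open Pool.Agent.H254R3.IN (IsIrr mem_Irr)
open Pool.Agent.Q90.WR Pool.Agent.Y63.KR
open Pool.Agent.Y63.AWC (numDefectZero)
open IC (Irr)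

/-! ### small groups -/

theorem cs_max {α : Type} [PartialOrder α] {A : Finset α} {M : α} (hM : M ∈ A)
    (h : ∀ P ∈ A, P ≤ M) : cs A = 0 := by
  rw [cs_of_weight (f := fun Q => if Q = M then 1 else 0)]
  · rw [Finset.sum_ite_eq' A M, if_pos hM, sub_self]
  · intro P hP
    rw [Finset.sum_ite_eq' _ M, if_pos (Finset.mem_filter.mpr ⟨hM, h P hP⟩)]

section small

variable {p : ℕ} [hp : Fact p.Prime] (K : Type) [Group K] [Finite K]

theorem card_irr [Fintype K] : (Irr K).card = Nat.card (ConjClasses K) := by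
  rw [← surfaceCount_one, surfaceCount_eq (n := 0)]
  unfold zsum
  simp

theorem W_coprime (h : ¬ p ∣ Nat.card K) (S : Set K) : W p S = 1 := by
  rw [W_cs, Finset.filter_eq_empty_iff.mpr, cs_empty]
  intro P hP hlt
  rw [mem_inv] at hP
  apply hlt.ne'
  obtain ⟨n, hn⟩ := (IsPGroup.iff_card).mp hP.1
  have h1 : ¬ p ∣ Nat.card P := fun h2 => h (h2.trans (Subgroup.card_subgroup_dvd_card P))
  rcases n with _ | n
  · rw [pow_zero] at hn
    exact Subgroup.card_eq_one.mp hn
  · exact absurd (hn ▸ dvd_pow_self p (Nat.succ_ne_zero n)) h1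

theorem altK_coprime (h : ¬ p ∣ Nat.card K) : altK p K = Nat.card (ConjClasses K) := by
  haveI := Fintype.ofFinite K
  have h1 := card_mul_altK (p := p) (G := K)
  have h2 : kap p K = (Nat.card {q : K × K // Commute q.1 q.2} : ℤ) := by
    unfold kap
    simp only [W_coprime K h]
    rw [Nat.card_eq_fintype_card, Fintype.card_subtype, Finset.card_filter, Fintype.sum_prod_type]
    push_cast
    rfl
  rw [h2, card_comm_eq_card_conjClasses_mul_card] at h1
  have h3 : (Nat.card K : ℤ) ≠ 0 := by exact_mod_cast Nat.card_pos.ne'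
  apply mul_left_cancel₀ h3
  rw [h1]
  push_cast
  ring

theorem z_coprime (h : ¬ p ∣ Nat.card K) : numDefectZero p K = Nat.card (ConjClasses K) := by
  haveI := Fintype.ofFinite K
  rw [numDefectZero_card, ← card_irr, Finset.filter_true_of_mem]
  intro χ hχ
  have h1 := mem_Irr.mp hχ
  rw [defZero_iff (ndeg_cast h1).symm]
  have h2 := vdeg_le (p := p) h1
  have h3 : (Nat.card K).factorization p = 0 := Nat.factorization_eq_zero_of_not_dvd h
  omega

theorem altK_pgroup (h : IsPGroup p K) (h1 : Nontrivial K) : altK p K = 0 := by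
  haveI := Fintype.ofFinite K
  have h2 := card_mul_altK (p := p) (G := K)
  have h3 : kap p K = 0 := by
    unfold kap
    refine Finset.sum_eq_zero fun x _ => Finset.sum_eq_zero fun y _ => ?_
    split_ifs
    · rw [W_cs]
      refine cs_max (M := ⊤) ?_ fun P _ => le_top
      rw [Finset.mem_filter, mem_inv]
      refine ⟨⟨h.of_equiv Subgroup.topEquiv.symm, ?_⟩, bot_lt_top⟩
      intro z _
      ext w
      rw [mem_conjSub]
      simp
    · rfl
  rw [h3] at h2
  have h4 : (Nat.card K : ℤ) ≠ 0 := by exact_mod_cast Nat.card_pos.ne'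
  exact (mul_eq_zero.mp h2).resolve_left h4

theorem z_pgroup (h : IsPGroup p K) (h1 : Nontrivial K) : numDefectZero p K = 0 := by
  haveI := Fintype.ofFinite K
  obtain ⟨n, hn⟩ := (IsPGroup.iff_card).mp h
  have hn0 : n ≠ 0 := by
    rintro rfl
    rw [pow_zero, Nat.card_eq_one_iff_unique] at hn
    exact not_subsingleton K hn.1
  rw [numDefectZero_card, Finset.card_eq_zero, Finset.filter_eq_empty_iff]
  intro χ hχ hd
  have h2 := mem_Irr.mp hχ
  rw [defZero_iff (ndeg_cast h2).symm, hn, hp.out.factorization_pow, Finsupp.single_eq_same] at hd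
  have h3 : p ^ n ∣ ndeg χ := by
    rw [← hd]
    exact Nat.ordProj_dvd _ _
  have h4 : p ^ n ≤ ndeg χ := Nat.le_of_dvd (ndeg_pos h2) h3
  have h5 : ndeg χ ^ 2 ≤ Nat.card K := by
    rw [← sum_ndeg_sq K]
    exact Finset.single_le_sum (f := fun χ => ndeg χ ^ 2) (fun _ _ => Nat.zero_le _) hχ
  have h6 : 1 < p ^ n := Nat.one_lt_pow hn0 hp.out.one_lt
  rw [hn] at h5
  nlinarith

theorem krc_coprime (h : ¬ p ∣ Nat.card K) : KRC p K := by
  rw [krc_altK, altK_coprime K h, z_coprime K h]

theorem krc_pgroup (h : IsPGroup p K) : KRC p K := by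
  rcases subsingleton_or_nontrivial K with h1 | h1
  · apply krc_coprime
    rw [Nat.card_eq_one_iff_unique.mpr ⟨h1, ⟨1⟩⟩]
    exact hp.out.one_lt.ne' ∘ Nat.dvd_one.mp
  · rw [krc_altK, altK_pgroup K h h1, z_pgroup K h h1]
    rfl

end small

/-! ### inheritance -/

section transfer

variable {p : ℕ} [hp : Fact p.Prime] {G H X : Type} [Group G] [Group H] [MulAction H X] [Finite G]
  [Finite H] [Finite X]

/-- the conjecture for `G` and the stabilisers of the colourings implies it for the wreath product -/
theorem krc_wrX (hG : KRC p G) (hH : ∀ c : X → Fin (numDefectZero p G), KRC p (stabC H c)) :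
    KRC p (WrX G H X) := by
  haveI := Fintype.ofFinite G
  haveI := Fintype.ofFinite H
  haveI := Fintype.ofFinite X
  rw [krc_altK] at hG ⊢
  have h1 := altK_wrX (p := p) (G := G) (H := H) (X := X)
  rw [hG, wpoly_nat] at h1
  have h2 := z_wrX (p := p) (G := G) (H := H) (X := X)
  have h3 : (Nat.card H : ℤ) ≠ 0 := by exact_mod_cast Nat.card_pos.ne'
  apply mul_left_cancel₀ h3
  rw [h1, h2]
  refine Finset.sum_congr rfl fun c _ => ?_
  rw [(krc_altK _).mp (hH c)]

theorem krc_wrX_coprime (hG : KRC p G) (hH : ¬ p ∣ Nat.card H) : KRC p (WrX G H X) :=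
  krc_wrX hG fun _ => krc_coprime _ fun h => hH (h.trans (Subgroup.card_subgroup_dvd_card _))

theorem krc_wrX_pgroup (hG : KRC p G) (hH : IsPGroup p H) : KRC p (WrX G H X) :=
  krc_wrX hG fun _ => krc_pgroup _ (hH.to_subgroup _)

end transfer

/-! ### the wreath product with a group of prime order -/

section cyc

variable {p : ℕ} [hp : Fact p.Prime]

/-- the value of both sides of the conjecture at a group of order `q` -/
def ep (p q : ℕ) : ℤ := if q = p then 0 else q

theorem altK_prime {q : ℕ} [hq : Fact q.Prime] (K : Type) [Group K] [Finite K]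
    (h : Nat.card K = q) : altK p K = ep p q := by
  unfold ep
  split_ifs with h1
  · have h2 : Nontrivial K := by
      rw [← Finite.one_lt_card_iff_nontrivial, h]
      exact hq.out.one_lt
    refine altK_pgroup K (IsPGroup.of_card (n := 1) ?_) h2
    rw [h, h1, pow_one]
  · have h2 : ¬ p ∣ Nat.card K := by
      rw [h, Nat.prime_dvd_prime_iff_eq hp.out hq.out]
      exact fun h3 => h1 h3.symm
    rw [altK_coprime K h2]
    haveI := isCyclic_of_prime_card h
    letI : CommGroup K := IsCyclic.commGroup
    rw [← h]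
    congr 1
    exact Nat.card_congr (ConjClasses.mkEquiv (α := K)).symm

theorem z_prime {q : ℕ} [hq : Fact q.Prime] (K : Type) [Group K] [Finite K]
    (h : Nat.card K = q) : (numDefectZero p K : ℤ) = ep p q := by
  unfold ep
  split_ifs with h1
  · have h2 : Nontrivial K := by
      rw [← Finite.one_lt_card_iff_nontrivial, h]
      exact hq.out.one_lt
    rw [z_pgroup K (IsPGroup.of_card (n := 1) ?_) h2]
    · rfl
    rw [h, h1, pow_one]
  · have h2 : ¬ p ∣ Nat.card K := by
      rw [h, Nat.prime_dvd_prime_iff_eq hp.out hq.out]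
      exact fun h3 => h1 h3.symm
    rw [z_coprime K h2]
    haveI := isCyclic_of_prime_card h
    letI : CommGroup K := IsCyclic.commGroup
    rw [← h]
    congr 1
    exact Nat.card_congr (ConjClasses.mkEquiv (α := K)).symm

theorem altK_triv (K : Type) [Group K] [Finite K] (h : Nat.card K = 1) : altK p K = 1 := by
  have h2 : ¬ p ∣ Nat.card K := by
    rw [h, Nat.dvd_one]
    exact hp.out.one_lt.ne'
  rw [altK_coprime K h2]
  have : Subsingleton K := (Nat.card_eq_one_iff_unique.mp h).1
  have : Subsingleton (ConjClasses K) := ConjClasses.mk_surjective.subsingleton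
  rw [Nat.card_eq_one_iff_unique.mpr ⟨this, ⟨ConjClasses.mk 1⟩⟩]
  rfl

theorem z_triv (K : Type) [Group K] [Finite K] (h : Nat.card K = 1) : numDefectZero p K = 1 := by
  have h2 : ¬ p ∣ Nat.card K := by
    rw [h, Nat.dvd_one]
    exact hp.out.one_lt.ne'
  have h3 := altK_triv (p := p) K h
  rw [altK_coprime K h2] at h3
  rw [z_coprime K h2]
  exact_mod_cast h3

variable (q : ℕ) [hq : Fact q.Prime]

/-- the group of order `q` -/
abbrev Cy (q : ℕ) : Type := Multiplicative (ZMod q)

instance : Finite (Cy q) := Finite.of_equiv (ZMod q) Multiplicative.ofAdd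

theorem card_Cy : Nat.card (Cy q) = q := by
  rw [Nat.card_congr Multiplicative.toAdd, Nat.card_zmod]

/-- sums over the colourings of the regular `Cy q`-set -/
theorem sum_colour_Cy (m : ℕ) {_ : Fintype (Cy q → Fin m)} (g : Subgroup (Cy q) → ℤ) :
    ∑ c : Cy q → Fin m, g (stabC (Cy q) c) = m * g ⊤ + (m ^ q - m) * g ⊥ := by
  have hc : ∀ c : Cy q → Fin m, stabC (Cy q) c = ⊤ ↔ c ∈ Set.range (Function.const (Cy q)) := by
    intro c
    constructor
    · intro h
      refine ⟨c 1, ?_⟩
      funext x
      have h1 : x ∈ stabC (Cy q) c := by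
        rw [h]
        trivial
      have h2 := h1 1
      rw [smul_eq_mul, mul_one] at h2
      exact h2.symm
    · rintro ⟨a, rfl⟩
      rw [eq_top_iff]
      intro x _ y
      rfl
  haveI : IsSimpleGroup (Cy q) := isSimpleGroup_of_prime_card (card_Cy q)
  have hb : ∀ c : Cy q → Fin m, ¬ stabC (Cy q) c = ⊤ → stabC (Cy q) c = ⊥ := by
    intro c h
    rcases (inferInstance : (stabC (Cy q) c).Normal).eq_bot_or_eq_top with h1 | h1
    · exact h1
    · exact absurd h1 h
  have h1 : ∀ c : Cy q → Fin m, g (stabC (Cy q) c) =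
      g ⊥ + if stabC (Cy q) c = ⊤ then g ⊤ - g ⊥ else 0 := by
    intro c
    split_ifs with h
    · rw [h]
      ring
    · rw [hb c h, add_zero]
  have h2 : (Finset.univ.filter fun c : Cy q → Fin m => stabC (Cy q) c = ⊤).card = m := by
    have e : (Finset.univ.filter fun c : Cy q → Fin m => stabC (Cy q) c = ⊤) =
        Finset.univ.image (Function.const (Cy q)) := by
      ext c
      rw [Finset.mem_filter, hc]
      simp
    rw [e, Finset.card_image_of_injective _ (Function.const_injective), Finset.card_univ,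
      Fintype.card_fin]
  rw [Finset.sum_congr rfl fun c _ => h1 c, Finset.sum_add_distrib, Finset.sum_const,
    ← Finset.sum_filter, Finset.sum_const, h2, Finset.card_univ, ← Nat.card_eq_fintype_card,
    Nat.card_fun, Nat.card_eq_fintype_card (α := Fin m), Fintype.card_fin, card_Cy, nsmul_eq_mul,
    nsmul_eq_mul]
  push_cast
  ring

theorem wpoly_Cy (t : ℤ) : (wpoly p (Cy q) (Cy q)).eval t = t ^ q + (q * ep p q - 1) * t := by
  have h1 : wpoly p (Cy q) (Cy q) =
      Polynomial.X ^ q + Polynomial.C (q * ep p q - 1) * Polynomial.X := by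
    refine Polynomial.eq_of_infinite_eval_eq _ _ (Set.infinite_of_injective_forall_mem
      (f := fun m : ℕ => (m : ℤ)) Nat.cast_injective fun m => ?_)
    change Polynomial.eval (m : ℤ) _ = Polynomial.eval (m : ℤ) _
    rw [wpoly_nat]
    refine (sum_colour_Cy q m fun K => (Nat.card K : ℤ) * altK p K).trans ?_
    have h3 : Nat.card (⊤ : Subgroup (Cy q)) = q := by rw [Subgroup.card_top, card_Cy]
    rw [altK_prime (q := q) _ h3, h3, altK_triv _ Subgroup.card_bot, Subgroup.card_bot]
    simp only [Polynomial.eval_add, Polynomial.eval_mul, Polynomial.eval_C, Polynomial.eval_pow,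
      Polynomial.eval_X]
    push_cast
    ring
  rw [h1]
  simp

/-- the wreath product with the group of order `q` -/
abbrev WrC (G : Type) [Group G] (q : ℕ) : Type := WrX G (Cy q) (Cy q)

theorem altK_WrC (G : Type) [Group G] [Finite G] :
    q * altK p (WrC G q) = altK p G ^ q + (q * ep p q - 1) * altK p G := by
  haveI := Fintype.ofFinite G
  have h := altK_wrX (p := p) (G := G) (H := Cy q) (X := Cy q)
  rw [card_Cy, wpoly_Cy] at h
  exact h

theorem z_WrC (G : Type) [Group G] [Finite G] : (q : ℤ) * numDefectZero p (WrC G q) =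
    (numDefectZero p G : ℤ) ^ q + (q * ep p q - 1) * numDefectZero p G := by
  haveI := Fintype.ofFinite G
  have h := z_wrX (p := p) (G := G) (H := Cy q) (X := Cy q)
  rw [card_Cy] at h
  rw [h]
  refine (sum_colour_Cy q _ fun K => (Nat.card K : ℤ) * numDefectZero p K).trans ?_
  have h3 : Nat.card (⊤ : Subgroup (Cy q)) = q := by rw [Subgroup.card_top, card_Cy]
  rw [z_prime (q := q) _ h3, h3, z_triv _ Subgroup.card_bot, Subgroup.card_bot]
  push_cast
  ring

/-- the error term -/
def dif (p : ℕ) (G : Type) [Group G] : ℤ := altK p G - numDefectZero p G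

theorem krc_dif (G : Type) [Group G] [Finite G] : KRC p G ↔ dif p G = 0 := by
  rw [krc_altK, dif, sub_eq_zero]

theorem dvd_step {k : ℕ} (hk : k ≠ 0) (G : Type) [Group G] [Finite G]
    (h : (q : ℤ) ^ k ∣ dif p G) (h' : (q : ℤ) ^ k ∣ dif p (WrC G q)) :
    (q : ℤ) ^ (k + 1) ∣ dif p G := by
  have h1 := altK_WrC (p := p) q G
  have h2 := z_WrC (p := p) q G
  unfold dif at h h' ⊢
  set E := altK p G
  set z : ℤ := (numDefectZero p G : ℤ)
  have h3 : (q : ℤ) ^ (k + 1) ∣ E ^ q - z ^ q := by
    rw [← geom_sum₂_mul, pow_succ']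
    exact mul_dvd_mul (dvd_geom_sum₂_self ((dvd_pow_self _ hk).trans h)) h
  have h4 : (q : ℤ) ^ (k + 1) ∣ (q : ℤ) * ep p q * (E - z) := by
    rw [pow_succ', mul_assoc]
    exact mul_dvd_mul_left _ (h.mul_left _)
  have h5 : (q : ℤ) ^ (k + 1) ∣ (q : ℤ) * (altK p (WrC G q) - numDefectZero p (WrC G q)) := by
    rw [pow_succ']
    exact mul_dvd_mul_left _ h'
  have h6 : E - z = (E ^ q - z ^ q) + (q : ℤ) * ep p q * (E - z) -
      (q : ℤ) * (altK p (WrC G q) - numDefectZero p (WrC G q)) := by
    linear_combination h1 - h2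
  rw [h6]
  exact dvd_sub (dvd_add h3 h4) h5

/-- the congruence criterion for classes of groups -/
theorem criterion (C : (G : Type) → Group G → Prop)
    (hfin : ∀ (G : Type) [i : Group G], C G i → Finite G)
    (hC : ∀ (G : Type) [i : Group G], C G i → C (WrC G q) inferInstance) :
    (∀ (G : Type) [i : Group G], C G i → KRC p G) ↔
      ∀ (G : Type) [i : Group G], C G i → (q : ℤ) ∣ dif p G := by
  constructor
  · intro h G i hG
    haveI := hfin G hG
    rw [(krc_dif G).mp (h G hG)]
    exact dvd_zero _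
  · intro h
    have h1 : ∀ k : ℕ, ∀ (G : Type) [i : Group G], C G i → (q : ℤ) ^ (k + 1) ∣ dif p G := by
      intro k
      induction k with
      | zero =>
        intro G i hG
        rw [zero_add, pow_one]
        exact h G hG
      | succ k ih =>
        intro G i hG
        haveI := hfin G hG
        exact dvd_step q (Nat.succ_ne_zero k) G (ih G hG) (ih _ (hC G hG))
    intro G i hG
    haveI := hfin G hG
    rw [krc_dif]
    by_contra hne
    have h2 := Int.natAbs_dvd_natAbs.mpr (h1 (dif p G).natAbs G hG)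
    rw [Int.natAbs_pow, Int.natAbs_natCast] at h2
    have h3 := Nat.le_of_dvd (Int.natAbs_pos.mpr hne) h2
    have h4 : (dif p G).natAbs + 1 < q ^ ((dif p G).natAbs + 1) := Nat.lt_pow_self hq.out.one_lt
    omega

/-- for odd `q ≠ p` the conjecture for the wreath product is equivalent to the one for the group -/
theorem krc_WrC_iff (hq2 : q ≠ 2) (hqp : q ≠ p) (G : Type) [Group G] [Finite G] :
    KRC p (WrC G q) ↔ KRC p G := by
  rw [krc_altK, krc_altK]
  have h1 := altK_WrC (p := p) q G
  have h2 := z_WrC (p := p) q G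
  have h3 : ep p q = q := if_neg hqp
  rw [h3] at h1 h2
  have hq0 : (q : ℤ) ≠ 0 := by exact_mod_cast hq.out.ne_zero
  have hmono : StrictMono fun t : ℤ => t ^ q + (q * q - 1) * t := by
    have h4 : StrictMono fun t : ℤ => t ^ q := (hq.out.odd_of_ne_two hq2).strictMono_pow
    have h5 : (1 : ℤ) < q := by exact_mod_cast hq.out.one_lt
    refine h4.add (strictMono_mul_left_of_pos ?_)
    nlinarith
  constructor
  · intro h
    apply hmono.injective
    dsimp only
    rw [← h1, ← h2, h]
  · intro h
    apply mul_left_cancel₀ hq0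
    rw [h1, h2, h]

/-- all finite groups -/
theorem criterion_all : (∀ (G : Type) [Group G] [Finite G], KRC p G) ↔
    ∀ (G : Type) [Group G] [Finite G], (q : ℤ) ∣ dif p G := by
  have h := criterion (p := p) q (fun G i => Finite G) (fun G i hG => hG) (fun G i hG => by
    haveI := hG
    infer_instance)
  exact h

/-- a criterion without characters -/
theorem criterion_surf : (∀ (G : Type) [Group G] [Finite G], KRC p G) ↔
    ∀ (G : Type) [Group G] [Finite G], (p : ℤ) ∣ altK p G - surfaceCount p G := by
  rw [criterion_all (p := p) p]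
  have hp1 : p - 1 ≠ 0 := by
    have := hp.out.one_lt
    omega
  have h1 : ∀ (G : Type) [Group G] [Finite G],
      (p : ℤ) ∣ (surfaceCount p G : ℤ) - (numDefectZero p G : ℤ) := by
    intro G _ _
    have h2 := surfaceCount_mod (p := p) (G := G) (N := 0) (n := p - 1) hp1
      (by rw [pow_zero, one_mul])
    rw [zero_add, pow_one, Nat.sub_add_cancel hp.out.one_lt.le] at h2
    exact h2
  refine forall_congr' fun G => forall_congr' fun _ => forall_congr' fun _ => ?_
  unfold dif
  constructor
  · intro h
    have := dvd_sub h (h1 G)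
    rwa [sub_sub_sub_cancel_right] at this
  · intro h
    have := dvd_add h (h1 G)
    rwa [sub_add_sub_cancel] at this

end cyc

end Pool.Agent.W2helper32.KR
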