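import Pool.Agent.Q90.WR.Krq

/-!
# Homomorphisms from groups which are extensions of `ℤ²` by a `p`-group
-/

set_option autoImplicit false

open scoped BigOperators Classical

noncomputable section

namespace Pool.Agent.W2helper32.KR

open Pool.Agent.Y63.KR Pool.Agent.Q90.WR

/-- the free abelian group of rank two -/
abbrev Z2 : Type := Multiplicative (ℤ × ℤ)

/-- subgroups of finite index of `ℤ²` are isomorphic to `ℤ²` -/
theorem exists_iso (L : Subgroup Z2) (hL : L.index ≠ 0) : Nonempty (L ≃* Z2) := by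
  let A : AddSubgroup (ℤ × ℤ) := Subgroup.toAddSubgroup' L
  have hA : A.index ≠ 0 := hL
  have : A.FiniteIndex := ⟨hA⟩
  have h1 : Module.finrank ℤ A = 2 := by
    rw [AddSubgroup.finrank_eq_of_finiteIndex]
    simp
  let b := Module.finBasisOfFinrankEq ℤ A h1
  let e : A ≃+ (ℤ × ℤ) := (b.equivFun.trans (LinearEquiv.finTwoArrow ℤ ℤ)).toAddEquiv
  exact ⟨{
    toFun := fun l => Multiplicative.ofAdd (e ⟨l.1.toAdd, l.2⟩)
    invFun := fun c => ⟨Multiplicative.ofAdd (e.symm c.toAdd).1, (e.symm c.toAdd).2⟩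
    left_inv := fun l => by
      apply Subtype.ext
      simp
    right_inv := fun c => by
      simp
    map_mul' := fun l l' => by
      rw [← ofAdd_add, ← map_add]
      rfl }⟩

theorem finite_hom (S G : Type) [Group S] [Group.FG S] [Group G] [Finite G] : Finite (S →* G) := by
  obtain ⟨s, hs⟩ := (Group.fg_iff (G := S)).mp inferInstance
  have : Finite s := hs.2
  refine Finite.of_injective (fun ρ : S →* G => fun x : s => ρ x) fun ρ ρ' h => ?_
  refine MonoidHom.eq_of_eqOn_dense hs.1 fun x hx => ?_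
  exact congrFun h ⟨x, hx⟩

section

variable {p : ℕ} {G : Type} [Group G]

theorem W_closure (K : Set G) : W p (Subgroup.closure K : Set G) = W p K := by
  refine W_congr fun P => ?_
  simp only [conjSub_eq_iff]
  constructor
  · intro h x hx
    exact h x (Subgroup.subset_closure hx)
  · intro h x hx
    exact (Subgroup.closure_le _).mpr h hx

/-- the homomorphism of `ℤ²` given by a commuting pair -/
def evh (x y : G) (h : x * y = y * x) : Z2 →* G where
  toFun c := x ^ c.toAdd.1 * y ^ c.toAdd.2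
  map_one' := by simp
  map_mul' c d := by
    have h1 : Commute x y := h
    change x ^ (c.toAdd.1 + d.toAdd.1) * y ^ (c.toAdd.2 + d.toAdd.2) = _
    rw [zpow_add, zpow_add, mul_assoc, mul_assoc]
    congr 1
    rw [← mul_assoc, ← mul_assoc]
    congr 1
    exact ((h1.zpow_left _).zpow_right _).eq

/-- the first generator -/
def g1 : Z2 := Multiplicative.ofAdd (1, 0)

/-- the second generator -/
def g2 : Z2 := Multiplicative.ofAdd (0, 1)

theorem g_comm : g1 * g2 = g2 * g1 := mul_comm _ _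

theorem evh_g1 (x y : G) (h : x * y = y * x) : evh x y h g1 = x := by
  change x ^ (1 : ℤ) * y ^ (0 : ℤ) = x
  simp

theorem evh_g2 (x y : G) (h : x * y = y * x) : evh x y h g2 = y := by
  change x ^ (0 : ℤ) * y ^ (1 : ℤ) = y
  simp

theorem Z2_eq (c : Z2) : c = g1 ^ c.toAdd.1 * g2 ^ c.toAdd.2 := by
  have h1 : g1 ^ c.toAdd.1 = Multiplicative.ofAdd (c.toAdd.1, 0) := by
    rw [g1, ← ofAdd_zsmul]
    simp
  have h2 : g2 ^ c.toAdd.2 = Multiplicative.ofAdd (0, c.toAdd.2) := by
    rw [g2, ← ofAdd_zsmul]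
    simp
  rw [h1, h2, ← ofAdd_add]
  simp

theorem hom_Z2_ext {ρ ρ' : Z2 →* G} (h1 : ρ g1 = ρ' g1) (h2 : ρ g2 = ρ' g2) : ρ = ρ' := by
  refine MonoidHom.ext fun c => ?_
  rw [Z2_eq c]
  simp [h1, h2]

instance : Group.FG Z2 := by
  rw [Group.fg_iff]
  refine ⟨{g1, g2}, ?_, Set.toFinite _⟩
  rw [eq_top_iff]
  intro c _
  rw [Z2_eq c]
  exact Subgroup.mul_mem _ (Subgroup.zpow_mem _ (Subgroup.subset_closure (by simp)) _)
    (Subgroup.zpow_mem _ (Subgroup.subset_closure (by simp)) _)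

theorem W_range_evh (ρ : Z2 →* G) : W p (Set.range ρ) = W p ({ρ g1, ρ g2} : Set G) := by
  rw [← W_closure ({ρ g1, ρ g2} : Set G)]
  congr 1
  apply Set.Subset.antisymm
  · rintro _ ⟨c, rfl⟩
    rw [Z2_eq c, map_mul, map_zpow, map_zpow]
    exact Subgroup.mul_mem _ (Subgroup.zpow_mem _ (Subgroup.subset_closure (by simp)) _)
      (Subgroup.zpow_mem _ (Subgroup.subset_closure (by simp)) _)
  · rw [← MonoidHom.coe_range, SetLike.coe_subset_coe, Subgroup.closure_le]
    rintro _ (rfl | rfl)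
    · exact ⟨g1, rfl⟩
    · exact ⟨g2, rfl⟩

variable [Fintype G]

theorem sum_hom_Z2 [Fintype (Z2 →* G)] : ∑ ρ : Z2 →* G, W p (Set.range ρ) = kap p G := by
  unfold kap
  rw [← Finset.sum_product', Finset.univ_product_univ, ← Finset.sum_filter]
  refine Finset.sum_bij (fun ρ _ => (ρ g1, ρ g2)) ?_ ?_ ?_ ?_
  · intro ρ _
    rw [Finset.mem_filter]
    refine ⟨Finset.mem_univ _, ?_⟩
    rw [← map_mul, g_comm, map_mul]
  · intro ρ _ ρ' _ h
    exact hom_Z2_ext (congrArg Prod.fst h) (congrArg Prod.snd h)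
  · rintro ⟨x, y⟩ h
    rw [Finset.mem_filter] at h
    exact ⟨evh x y h.2, Finset.mem_univ _, by rw [evh_g1, evh_g2]⟩
  · intro ρ _
    exact W_range_evh ρ

/-- a homomorphism which is not trivial on a normal `p`-subgroup does not contribute -/
theorem W_range_eq_zero [Fact p.Prime] {S : Type} [Group S] (ρ : S →* G) (K : Subgroup S)
    [hn : K.Normal] (hK : IsPGroup p K) (h : ¬ K ≤ ρ.ker) : W p (Set.range ρ) = 0 := by
  have : Fintype {σ : Set (Subgroup G) // IsPChain p σ} := Fintype.ofFinite _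
  unfold W
  rw [finsum_eq_sum_of_fintype]
  refine sum_eq_zero (U := K.map ρ) (hK.map ρ) ?_ ?_ ?_
  · intro h1
    apply h
    intro s hs
    have h2 : ρ s ∈ K.map ρ := ⟨s, hs, rfl⟩
    rw [h1, Subgroup.mem_bot] at h2
    exact h2
  · rintro _ ⟨s, _, rfl⟩
    exact Subgroup.subset_closure ⟨s, rfl⟩
  · rintro _ ⟨s, rfl⟩
    ext z
    rw [mem_conjSub]
    constructor
    · rintro ⟨k, hk, hk'⟩
      refine ⟨s * k * s⁻¹, hn.conj_mem k hk s, ?_⟩
      rw [map_mul, map_mul, map_inv, hk']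
      group
    · rintro ⟨k, hk, rfl⟩
      refine ⟨s⁻¹ * k * s, ?_, ?_⟩
      · have := hn.conj_mem k hk s⁻¹
        rwa [inv_inv] at this
      · rw [map_mul, map_mul, map_inv]

/-- **the sum over the homomorphisms of an extension of `ℤ²` by a `p`-group** -/
theorem sum_hom [Fact p.Prime] {S : Type} [Group S] [Fintype (S →* G)] (f : S →* Z2)
    (hf : Function.Surjective f) (hk : IsPGroup p f.ker) :
    ∑ ρ : S →* G, W p (Set.range ρ) = kap p G := by
  have : Finite (Z2 →* G) := finite_hom Z2 G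
  have : Fintype (Z2 →* G) := Fintype.ofFinite _
  rw [← sum_hom_Z2 (p := p) (G := G)]
  have h1 : ∑ ρ : S →* G, W p (Set.range ρ) =
      ∑ ρ ∈ Finset.univ.filter (fun ρ : S →* G => f.ker ≤ ρ.ker), W p (Set.range ρ) := by
    rw [Finset.sum_filter]
    refine Finset.sum_congr rfl fun ρ _ => ?_
    split_ifs with h
    · rfl
    · exact W_range_eq_zero ρ f.ker hk h
  rw [h1]
  symm
  refine Finset.sum_bij (fun ρ _ => ρ.comp f) ?_ ?_ ?_ ?_
  · intro ρ _
    rw [Finset.mem_filter]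
    refine ⟨Finset.mem_univ _, fun s hs => ?_⟩
    rw [MonoidHom.mem_ker] at hs ⊢
    rw [MonoidHom.comp_apply, hs, map_one]
  · intro ρ _ ρ' _ h
    refine MonoidHom.ext fun c => ?_
    obtain ⟨s, rfl⟩ := hf c
    exact DFunLike.congr_fun h s
  · intro ρ hρ
    rw [Finset.mem_filter] at hρ
    refine ⟨f.liftOfSurjective hf ⟨ρ, hρ.2⟩, Finset.mem_univ _, ?_⟩
    exact f.liftOfRightInverse_comp _ (Function.rightInverse_surjInv hf) ⟨ρ, hρ.2⟩
  · intro ρ _
    congr 1
    ext z
    constructor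
    · rintro ⟨c, rfl⟩
      obtain ⟨s, rfl⟩ := hf c
      exact ⟨s, rfl⟩
    · rintro ⟨s, rfl⟩
      exact ⟨f s, rfl⟩

end

end Pool.Agent.W2helper32.KR
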