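import Pool.Agent.W2helper32.KR.Pos
import Pool.Agent.W2helper32.KR.Hom

/-!
# Cocycles of a group acting on a finite set, and invariant families of `p`-subgroups
-/

set_option autoImplicit false

open scoped BigOperators Classical

noncomputable section

namespace Pool.Agent.W2helper32.KR

open Pool.Agent.Y63.KR Pool.Agent.Q90.WR

section

variable {T X G : Type} [Group T] [MulAction T X] [Group G]

/-- cocycles of the action groupoid with values in `G` -/
def IsCoc (a : T → X → G) : Prop := ∀ (s t : T) (z : X), a (s * t) z = a s (t • z) * a t z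

variable (T X G) in
/-- the set of the cocycles -/
abbrev Coc : Type := {a : T → X → G // IsCoc a}

theorem Coc.one (a : Coc T X G) (z : X) : a.1 1 z = 1 := by
  have h := a.2 1 1 z
  rw [one_mul, one_smul] at h
  exact (mul_eq_left.mp h.symm)

variable (T X) in
/-- the set of the orbits -/
abbrev Om : Type := MulAction.orbitRel.Quotient T X

variable (T) in
/-- the orbit -/
def cl (z : X) : Om T X := Quotient.mk'' z

/-- the base point -/
def bp (o : Om T X) : X := Quotient.out o

theorem cl_bp (o : Om T X) : cl T (bp o) = o := Quotient.out_eq o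

theorem cl_smul (s : T) (z : X) : cl T (s • z) = cl T z := by
  refine Quotient.sound ?_
  exact ⟨s, rfl⟩

theorem exists_tr (z : X) : ∃ t : T, t • bp (cl T z) = z := by
  have h : cl T (bp (cl T z)) = cl T z := cl_bp _
  have h1 := Quotient.exact h
  obtain ⟨t, ht⟩ := h1
  exact ⟨t⁻¹, by
    have h2 : t • z = bp (cl T z) := ht
    rw [← h2, inv_smul_smul]⟩

variable (T) in
/-- an element which maps the base point to `z` -/
def tr (z : X) : T := if bp (cl T z) = z then 1 else Classical.choose (exists_tr (T := T) z)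

theorem tr_smul (z : X) : tr T z • bp (cl T z) = z := by
  unfold tr
  split_ifs with h
  · rw [one_smul]
    exact h
  · exact Classical.choose_spec (exists_tr (T := T) z)

theorem tr_bp (o : Om T X) : tr T (bp o) = 1 := by
  unfold tr
  rw [if_pos]
  rw [cl_bp]

/-- the loop at the base point -/
theorem loop_mem (s : T) (z : X) :
    (tr T (s • z))⁻¹ * s * tr T z ∈ MulAction.stabilizer T (bp (cl T z)) := by
  rw [MulAction.mem_stabilizer_iff, mul_smul, mul_smul, tr_smul, inv_smul_eq_iff]
  conv_lhs => rw [← tr_smul (T := T) (s • z)]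
  rw [cl_smul]

/-- the restriction of a cocycle to a stabiliser -/
def Coc.res (a : Coc T X G) (x : X) : MulAction.stabilizer T x →* G where
  toFun s := a.1 s x
  map_one' := a.one x
  map_mul' s t := by
    have h := a.2 s t x
    rw [MulAction.mem_stabilizer_iff.mp t.2] at h
    exact h

theorem Coc.res_apply (a : Coc T X G) (x : X) (s : MulAction.stabilizer T x) :
    a.res x s = a.1 s x := rfl

variable (T X G) in
/-- the functions which are trivial at the base points -/
abbrev Bs : Type := {b : X → G // ∀ o : Om T X, b (bp o) = 1}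

theorem hom_heq (ρ : ∀ o : Om T X, MulAction.stabilizer T (bp o) →* G) {o o' : Om T X} (h : o = o')
    (s : T) (h1 : s ∈ MulAction.stabilizer T (bp o)) (h2 : s ∈ MulAction.stabilizer T (bp o')) :
    ρ o ⟨s, h1⟩ = ρ o' ⟨s, h2⟩ := by
  subst h
  rfl

/-- the cocycle given by a function and homomorphisms of the stabilisers -/
def mkc (b : X → G) (ρ : ∀ o : Om T X, MulAction.stabilizer T (bp o) →* G) : Coc T X G :=
  ⟨fun s z => b (s • z) * ρ (cl T z) ⟨_, loop_mem s z⟩ * (b z)⁻¹, by
    intro r s z
    have h1 : ρ (cl T (s • z)) ⟨_, loop_mem r (s • z)⟩ = ρ (cl T z)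
        ⟨(tr T (r • s • z))⁻¹ * r * tr T (s • z), by
          have := loop_mem r (s • z)
          rwa [cl_smul] at this⟩ := hom_heq ρ (cl_smul s z) _ _ _
    have h2 : ρ (cl T z) ⟨_, loop_mem (r * s) z⟩ = ρ (cl T z)
        ⟨(tr T (r • s • z))⁻¹ * r * tr T (s • z), by
          have := loop_mem r (s • z)
          rwa [cl_smul] at this⟩ * ρ (cl T z) ⟨_, loop_mem s z⟩ := by
      rw [← map_mul]
      congr 1
      apply Subtype.ext
      change (tr T ((r * s) • z))⁻¹ * (r * s) * tr T z = (tr T (r • s • z))⁻¹ * r * tr T (s • z) *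
        ((tr T (s • z))⁻¹ * s * tr T z)
      rw [mul_smul]
      group
    change b ((r * s) • z) * ρ (cl T z) ⟨_, loop_mem (r * s) z⟩ * (b z)⁻¹ =
      (b (r • s • z) * ρ (cl T (s • z)) ⟨_, loop_mem r (s • z)⟩ * (b (s • z))⁻¹) *
      (b (s • z) * ρ (cl T z) ⟨_, loop_mem s z⟩ * (b z)⁻¹)
    rw [h1, h2, mul_smul]
    group⟩

theorem mkc_apply (b : X → G) (ρ : ∀ o : Om T X, MulAction.stabilizer T (bp o) →* G) (s : T)
    (z : X) : (mkc b ρ).1 s z = b (s • z) * ρ (cl T z) ⟨_, loop_mem s z⟩ * (b z)⁻¹ := rfl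

variable (T X G) in
/-- cocycles in terms of functions and homomorphisms -/
def cocEquiv : Coc T X G ≃ Bs T X G × (∀ o : Om T X, MulAction.stabilizer T (bp o) →* G) where
  toFun a := (⟨fun z => a.1 (tr T z) (bp (cl T z)), fun o => by
    change a.1 (tr T (bp o)) (bp (cl T (bp o))) = 1
    rw [tr_bp]
    exact a.one _⟩, fun o => a.res (bp o))
  invFun q := mkc q.1.1 q.2
  left_inv a := by
    apply Subtype.ext
    funext s z
    rw [mkc_apply]
    change a.1 (tr T (s • z)) (bp (cl T (s • z))) *
      a.1 ((tr T (s • z))⁻¹ * s * tr T z) (bp (cl T z)) * (a.1 (tr T z) (bp (cl T z)))⁻¹ = a.1 s z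
    rw [cl_smul, mul_inv_eq_iff_eq_mul]
    have h1 := a.2 (tr T (s • z)) ((tr T (s • z))⁻¹ * s * tr T z) (bp (cl T z))
    rw [MulAction.mem_stabilizer_iff.mp (loop_mem s z)] at h1
    have h2 := a.2 s (tr T z) (bp (cl T z))
    rw [tr_smul] at h2
    rw [← h1, ← h2]
    group
  right_inv q := by
    obtain ⟨⟨b, hb⟩, ρ⟩ := q
    refine Prod.ext (Subtype.ext ?_) ?_
    · funext z
      change b (tr T z • bp (cl T z)) * ρ (cl T (bp (cl T z))) ⟨_, loop_mem (tr T z) (bp (cl T z))⟩ *
        (b (bp (cl T z)))⁻¹ = b z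
      rw [hb, inv_one, mul_one]
      have h1 : ρ (cl T (bp (cl T z))) ⟨_, loop_mem (tr T z) (bp (cl T z))⟩ = 1 := by
        rw [← map_one (ρ (cl T (bp (cl T z))))]
        congr 1
        apply Subtype.ext
        change (tr T (tr T z • bp (cl T z)))⁻¹ * tr T z * tr T (bp (cl T z)) = 1
        rw [tr_smul, tr_bp, mul_one, inv_mul_cancel]
      rw [h1, mul_one, tr_smul]
    · funext o
      refine MonoidHom.ext fun s => ?_
      change b ((s : T) • bp o) * ρ (cl T (bp o)) ⟨_, loop_mem (s : T) (bp o)⟩ * (b (bp o))⁻¹ = ρ o s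
      have hb1 : b ((s : T) • bp o) = 1 := by
        rw [MulAction.mem_stabilizer_iff.mp s.2, hb]
      rw [hb1, hb, one_mul, inv_one, mul_one]
      have h3 : (tr T ((s : T) • bp o))⁻¹ * (s : T) * tr T (bp o) = s := by
        rw [MulAction.mem_stabilizer_iff.mp s.2, tr_bp, inv_one, one_mul, mul_one]
      rw [hom_heq ρ (cl_bp o) _ _ (by rw [h3]; exact s.2)]
      congr 1
      exact Subtype.ext h3

theorem cocEquiv_snd (a : Coc T X G) (o : Om T X) : (cocEquiv T X G a).2 o = a.res (bp o) := rfl

/-- the number of the functions which are trivial at the base points -/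
theorem card_Bs [Fintype X] [Fintype G] : Nat.card (Bs T X G) * Nat.card G ^ Nat.card (Om T X) =
    Nat.card G ^ Nat.card X := by
  have hΩ : Finite (Om T X) := Quotient.finite _
  have e : (X → G) ≃ Bs T X G × (Om T X → G) :=
    { toFun := fun b => (⟨fun z => if bp (cl T z) = z then 1 else b z, fun o => by
        change (if bp (cl T (bp o)) = bp o then 1 else b (bp o)) = 1
        rw [if_pos (by rw [cl_bp])]⟩, fun o => b (bp o))
      invFun := fun q z => if bp (cl T z) = z then q.2 (cl T z) else q.1.1 z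
      left_inv := fun b => by
        funext z
        dsimp only
        split_ifs with h
        · rw [h]
        · rfl
      right_inv := fun q => by
        obtain ⟨⟨b, hb⟩, c⟩ := q
        refine Prod.ext (Subtype.ext ?_) ?_
        · funext z
          dsimp only
          split_ifs with h
          · rw [← h, hb]
          · rfl
        · funext o
          dsimp only
          rw [if_pos (by rw [cl_bp]), cl_bp] }
  have h1 := Nat.card_congr e
  rw [Nat.card_prod, Nat.card_fun, Nat.card_fun] at h1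
  exact h1.symm

end

section fam

variable {T X G : Type} [Group T] [MulAction T X] [Group G] [Finite X] [Finite G] {p : ℕ}

/-- the families of `p`-subgroups of `G` which are invariant under the cocycle -/
def fam (p : ℕ) (a : T → X → G) : Finset (X → Subgroup G) :=
  (Set.toFinite {P : X → Subgroup G | (∀ z, IsPGroup p (P z)) ∧
    ∀ (s : T) (z : X), P (s • z) = conjSub (a s z) (P z)}).toFinset

theorem mem_fam {a : T → X → G} {P : X → Subgroup G} : P ∈ fam p a ↔
    (∀ z, IsPGroup p (P z)) ∧ ∀ (s : T) (z : X), P (s • z) = conjSub (a s z) (P z) := by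
  simp [fam]

theorem bot_mem_fam (a : T → X → G) : (⊥ : X → Subgroup G) ∈ fam p a :=
  mem_fam.mpr ⟨fun _ => IsPGroup.of_bot, fun s z => (conjSub_bot (a s z)).symm⟩

/-- the alternating sum is a product over the orbits -/
theorem cs_fam [Fintype (Om T X)] (a : Coc T X G) : cs ((fam p a.1).filter (⊥ < ·)) =
    ∏ o : Om T X, W p (Set.range (a.res (bp o))) := by
  have h0 : ∀ P ∈ fam p a.1, ∀ z, P z = conjSub (a.1 (tr T z) (bp (cl T z))) (P (bp (cl T z))) := by
    intro P hP z
    have := (mem_fam.mp hP).2 (tr T z) (bp (cl T z))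
    rwa [tr_smul] at this
  rw [cs_pi (fun o : Om T X => inv p (Set.range (a.res (bp o)))) (fam p a.1)
    (fun P o => P (bp o))]
  · exact Finset.prod_congr rfl fun o _ => (W_cs _).symm
  · intro P hP o
    rw [mem_fam] at hP
    rw [mem_inv]
    refine ⟨hP.1 _, ?_⟩
    rintro _ ⟨s, rfl⟩
    have := hP.2 s (bp o)
    rw [MulAction.mem_stabilizer_iff.mp s.2] at this
    exact this.symm
  · intro P hP Q hQ
    constructor
    · exact fun h o => h _
    · intro h z
      rw [h0 P hP z, h0 Q hQ z]
      exact conjSub_le (h _)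
  · intro R hR
    refine ⟨fun z => conjSub (a.1 (tr T z) (bp (cl T z))) (R (cl T z)), ?_, ?_⟩
    · rw [mem_fam]
      refine ⟨fun z => (mem_inv.mp (hR (cl T z))).1.map _, fun s z => ?_⟩
      rw [cl_smul, ← conjSub_mul]
      have h1 := a.2 (tr T (s • z)) ((tr T (s • z))⁻¹ * s * tr T z) (bp (cl T z))
      rw [MulAction.mem_stabilizer_iff.mp (loop_mem s z)] at h1
      have h2 := a.2 s (tr T z) (bp (cl T z))
      rw [tr_smul] at h2
      have h3 : (tr T (s • z)) * ((tr T (s • z))⁻¹ * s * tr T z) = s * tr T z := by group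
      have h4 : conjSub (a.1 ((tr T (s • z))⁻¹ * s * tr T z) (bp (cl T z))) (R (cl T z)) =
          R (cl T z) := (mem_inv.mp (hR (cl T z))).2 _ ⟨⟨_, loop_mem s z⟩, rfl⟩
      rw [← h2, ← h3, h1, conjSub_mul, h4]
    · funext o
      dsimp only
      rw [tr_bp, a.one, conjSub_one, cl_bp]
  · exact bot_mem_fam _
  · intro o
    rfl

/-- **the sum over all cocycles** -/
theorem sum_coc [Fintype G] [Fintype X] (E : ℤ) (hE : kap p G = Nat.card G * E)
    (h : ∀ x : X, ∃ _ : Finite (MulAction.stabilizer T x →* G),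
      ∀ [Fintype (MulAction.stabilizer T x →* G)],
        ∑ ρ : MulAction.stabilizer T x →* G, W p (Set.range ρ) = kap p G) :
    ∃ _ : Finite (Coc T X G), ∀ [Fintype (Coc T X G)],
      ∑ a : Coc T X G, cs ((fam p a.1).filter (⊥ < ·)) =
        (Nat.card G : ℤ) ^ Nat.card X * E ^ Nat.card (Om T X) := by
  have hΩ : Finite (Om T X) := Quotient.finite _
  have hΩ' : Fintype (Om T X) := Fintype.ofFinite _
  have hfin : ∀ o : Om T X, Finite (MulAction.stabilizer T (bp o) →* G) :=
    fun o => (h (bp o)).choose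
  have hfin' : ∀ o : Om T X, Fintype (MulAction.stabilizer T (bp o) →* G) :=
    fun o => Fintype.ofFinite _
  refine ⟨Finite.of_equiv _ (cocEquiv T X G).symm, ?_⟩
  intro _
  have hB : Fintype (Bs T X G) := Fintype.ofFinite _
  have e1 : ∑ a : Coc T X G, cs ((fam p a.1).filter (⊥ < ·)) =
      ∑ q : Bs T X G × (∀ o : Om T X, MulAction.stabilizer T (bp o) →* G),
        ∏ o : Om T X, W p (Set.range (q.2 o)) := by
    refine Fintype.sum_equiv (cocEquiv T X G) _ _ fun a => ?_
    rw [cs_fam]
    rfl
  have e2 : ∑ ρ : (∀ o : Om T X, MulAction.stabilizer T (bp o) →* G),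
      ∏ o : Om T X, W p (Set.range (ρ o)) = (kap p G) ^ Nat.card (Om T X) := by
    have h1 := (Finset.prod_univ_sum (fun o : Om T X => (Finset.univ :
      Finset (MulAction.stabilizer T (bp o) →* G))) (fun o ρ => W p (Set.range ρ)))
    rw [Fintype.piFinset_univ] at h1
    rw [← h1, Finset.prod_congr rfl fun o _ => (h (bp o)).choose_spec, Finset.prod_const,
      Finset.card_univ, Nat.card_eq_fintype_card]
  rw [e1, Fintype.sum_prod_type]
  dsimp only
  rw [Finset.sum_congr rfl fun _ _ => e2, Finset.sum_const, Finset.card_univ, nsmul_eq_mul, hE,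
    mul_pow, ← mul_assoc]
  congr 1
  rw [← Nat.card_eq_fintype_card]
  exact_mod_cast card_Bs (T := T) (X := X) (G := G)

end fam

end Pool.Agent.W2helper32.KR
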