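import Pool.Agent.Q90.WR.Pos

/-!
# Alternating sums over chains of finite posets: Galois connections, products, splitting
-/

set_option autoImplicit false

open scoped BigOperators Classical

noncomputable section

namespace Pool.Agent.W2helper32.KR

open Pool.Agent.Q90.WR (cs cs_eq weight_eq weight_exists)

variable {α β : Type} [PartialOrder α] [PartialOrder β]

/-- the alternating sum in terms of a coweighting -/
theorem cs_of_weight {A : Finset α} {f : α → ℤ}
    (hf : ∀ P ∈ A, ∑ Q ∈ A.filter (P ≤ ·), f Q = 1) : cs A = 1 - ∑ P ∈ A, f P := by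
  rw [cs_eq]
  congr 1
  exact Finset.sum_congr rfl fun P hP => (weight_eq hf P hP).symm

/-- posets connected by a Galois connection have the same alternating sum -/
theorem cs_galois {A : Finset α} {B : Finset β} (a : α → β) (b : β → α)
    (ha : ∀ P ∈ A, a P ∈ B) (hb : ∀ Q ∈ B, b Q ∈ A)
    (h : ∀ P ∈ A, ∀ Q ∈ B, a P ≤ Q ↔ P ≤ b Q) : cs A = cs B := by
  have hg := weight_exists B
  set g : β → ℤ := fun Q => cs (B.filter (Q < ·)) with hgdef
  rw [cs_of_weight (A := B) (f := g) hg,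
    cs_of_weight (A := A) (f := fun P => ∑ Q ∈ B.filter (fun Q => b Q = P), g Q)]
  · congr 1
    exact Finset.sum_fiberwise_of_maps_to hb g
  · intro P hP
    have e1 : ∑ R ∈ A.filter (P ≤ ·), ∑ Q ∈ B.filter (fun Q => b Q = R), g Q =
        ∑ R ∈ A.filter (P ≤ ·), ∑ Q ∈ (B.filter (fun Q => P ≤ b Q)).filter (fun Q => b Q = R),
          g Q := by
      refine Finset.sum_congr rfl fun R hR => ?_
      refine Finset.sum_congr ?_ fun _ _ => rfl
      ext Q
      simp only [Finset.mem_filter]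
      constructor
      · rintro ⟨h1, rfl⟩
        exact ⟨⟨h1, (Finset.mem_filter.mp hR).2⟩, rfl⟩
      · rintro ⟨⟨h1, _⟩, h2⟩
        exact ⟨h1, h2⟩
    have e2 : ∀ Q ∈ B.filter (fun Q => P ≤ b Q), b Q ∈ A.filter (P ≤ ·) := by
      intro Q hQ
      rw [Finset.mem_filter] at hQ ⊢
      exact ⟨hb Q hQ.1, hQ.2⟩
    rw [e1, Finset.sum_fiberwise_of_maps_to e2 g]
    rw [← hg (a P) (ha P hP)]
    refine Finset.sum_congr ?_ fun _ _ => rfl
    ext Q
    simp only [Finset.mem_filter]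
    exact and_congr_right fun hQ => (h P hP Q hQ).symm

theorem cs_empty : cs (∅ : Finset α) = 1 := by
  rw [cs_eq]
  simp

/-- a Möbius function -/
theorem exists_mu [OrderBot α] [Finite α] (S : Finset α) : ∃ m : α → ℤ,
    ∀ Q ∈ S, ∑ U ∈ S.filter (· ≤ Q), m U = if Q = ⊥ then 1 else 0 := by
  have wf : WellFounded ((· < ·) : α → α → Prop) := Finite.to_wellFoundedLT.wf
  let m : α → ℤ := wf.fix (fun Q rec => (if Q = ⊥ then 1 else 0) -
    ∑ U ∈ (S.filter (· < Q)).attach, rec U.1 (Finset.mem_filter.mp U.2).2)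
  have hm : ∀ Q, m Q = (if Q = ⊥ then 1 else 0) - ∑ U ∈ S.filter (· < Q), m U := by
    intro Q
    have h1 : m Q = (if Q = ⊥ then 1 else 0) - ∑ U ∈ (S.filter (· < Q)).attach, m U.1 :=
      WellFounded.fix_eq wf _ _
    rw [h1, Finset.sum_attach (S.filter (· < Q)) m]
  refine ⟨m, fun Q hQ => ?_⟩
  have e : S.filter (· ≤ Q) = insert Q (S.filter (· < Q)) := by
    ext U
    simp only [Finset.mem_filter, Finset.mem_insert]
    constructor
    · rintro ⟨h1, h2⟩
      rcases h2.eq_or_lt with h3 | h3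
      · exact Or.inl h3
      · exact Or.inr ⟨h1, h3⟩
    · rintro (rfl | ⟨h1, h2⟩)
      · exact ⟨hQ, le_rfl⟩
      · exact ⟨h1, h2.le⟩
  rw [e, Finset.sum_insert (by simp), hm Q]
  ring

/-- splitting at a lower set `D` with its Möbius function `m` -/
theorem cs_split [OrderBot α] {S : Finset α} (hbot : ⊥ ∈ S) (D : α → Prop)
    (hD : ∀ P ∈ S, ∀ Q ∈ S, P ≤ Q → D Q → D P) (hDb : D ⊥) (m : α → ℤ)
    (hm : ∀ Q ∈ S, D Q → ∑ U ∈ S.filter (fun U => D U ∧ U ≤ Q), m U = if Q = ⊥ then 1 else 0) :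
    cs (S.filter (⊥ < ·)) =
      ∑ U ∈ S.filter D, m U * cs (S.filter (fun P => ¬ D P ∧ U < P)) := by
  have hf := weight_exists S
  set f : α → ℤ := fun Q => cs (S.filter (Q < ·)) with hfdef
  have key : ∀ U ∈ S.filter D, cs (S.filter (fun P => ¬ D P ∧ U < P)) =
      ∑ Q ∈ S.filter (fun Q => D Q ∧ U ≤ Q), f Q := by
    intro U hU
    rw [Finset.mem_filter] at hU
    rw [cs_of_weight (f := f)]
    · rw [← hf U hU.1]
      have e : S.filter (U ≤ ·) = S.filter (fun Q => D Q ∧ U ≤ Q) ∪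
          S.filter (fun P => ¬ D P ∧ U < P) := by
        ext Q
        simp only [Finset.mem_filter, Finset.mem_union]
        constructor
        · rintro ⟨h1, h2⟩
          by_cases h3 : D Q
          · exact Or.inl ⟨h1, h3, h2⟩
          · refine Or.inr ⟨h1, h3, lt_of_le_of_ne h2 ?_⟩
            rintro rfl
            exact h3 hU.2
        · rintro (⟨h1, _, h2⟩ | ⟨h1, _, h2⟩)
          · exact ⟨h1, h2⟩
          · exact ⟨h1, h2.le⟩
      rw [e, Finset.sum_union]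
      · ring
      · rw [Finset.disjoint_left]
        intro Q h1 h2
        rw [Finset.mem_filter] at h1 h2
        exact h2.2.1 h1.2.1
    · intro P hP
      rw [Finset.mem_filter] at hP
      rw [← hf P hP.1]
      refine Finset.sum_congr ?_ fun _ _ => rfl
      ext Q
      simp only [Finset.mem_filter]
      constructor
      · rintro ⟨⟨h1, _⟩, h2⟩
        exact ⟨h1, h2⟩
      · rintro ⟨h1, h2⟩
        exact ⟨⟨h1, fun h3 => hP.2.1 (hD P hP.1 Q h1 h2 h3), hP.2.2.trans_le h2⟩, h2⟩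
  rw [Finset.sum_congr rfl fun U hU => by rw [key U hU]]
  simp_rw [Finset.mul_sum]
  have h1 : ∑ U ∈ S.filter D, ∑ Q ∈ S.filter (fun Q => D Q ∧ U ≤ Q), m U * f Q =
      ∑ Q ∈ S.filter D, ∑ U ∈ S.filter (fun U => D U ∧ U ≤ Q), m U * f Q := by
    refine Finset.sum_comm' ?_
    intro U Q
    simp only [Finset.mem_filter]
    constructor
    · rintro ⟨⟨h1, h2⟩, h3, h4, h5⟩
      exact ⟨⟨h1, h2, h5⟩, h3, h4⟩
    · rintro ⟨⟨h1, h2, h5⟩, h3, h4⟩
      exact ⟨⟨h1, h2⟩, h3, h4, h5⟩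
  rw [h1]
  have h2 : ∀ Q ∈ S.filter D, ∑ U ∈ S.filter (fun U => D U ∧ U ≤ Q), m U * f Q =
      if Q = ⊥ then f Q else 0 := by
    intro Q hQ
    rw [Finset.mem_filter] at hQ
    rw [← Finset.sum_mul, hm Q hQ.1 hQ.2]
    split_ifs <;> simp
  rw [Finset.sum_congr rfl h2, Finset.sum_ite_eq' (S.filter D) ⊥ f, if_pos]
  rw [Finset.mem_filter]
  exact ⟨hbot, hDb⟩

/-- P. Hall's theorem -/
theorem cs_hall [OrderBot α] {S : Finset α} (hbot : ⊥ ∈ S) (m : α → ℤ)
    (hm : ∀ Q ∈ S, ∑ U ∈ S.filter (· ≤ Q), m U = if Q = ⊥ then 1 else 0) :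
    cs (S.filter (⊥ < ·)) = ∑ U ∈ S, m U := by
  rw [cs_split hbot (fun _ => True) (fun _ _ _ _ _ _ => trivial) trivial m (fun Q hQ _ => by
    rw [← hm Q hQ]
    simp)]
  simp [cs_empty]

/-- products of posets with smallest elements -/
theorem cs_pi {ι γ : Type} [Fintype ι] [PartialOrder γ] [OrderBot γ] [OrderBot α]
    (S : ι → Finset α) (A : Finset γ) (e : γ → ι → α) (he : ∀ P ∈ A, ∀ i, e P i ∈ S i)
    (hle : ∀ P ∈ A, ∀ Q ∈ A, P ≤ Q ↔ ∀ i, e P i ≤ e Q i)
    (hsurj : ∀ R : ι → α, (∀ i, R i ∈ S i) → ∃ P ∈ A, e P = R)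
    (hA : ⊥ ∈ A) (he0 : ∀ i, e ⊥ i = ⊥) :
    cs (A.filter (⊥ < ·)) = ∏ i, cs ((S i).filter (⊥ < ·)) := by
  have h := weight_eq (S := A) (f := fun P => ∏ i, cs ((S i).filter (e P i < ·))) ?_ ⊥ hA
  · rw [← h]
    simp only [he0]
  · intro P hP
    have h1 : ∀ i, ∑ Q ∈ (S i).filter (e P i ≤ ·), cs ((S i).filter (Q < ·)) = 1 :=
      fun i => weight_exists (S i) (e P i) (he P hP i)
    have h2 : ∏ i, ∑ Q ∈ (S i).filter (e P i ≤ ·), cs ((S i).filter (Q < ·)) = 1 := by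
      rw [Finset.prod_congr rfl fun i _ => h1 i]
      simp
    rw [Finset.prod_univ_sum] at h2
    rw [← h2]
    refine Finset.sum_bij (fun Q _ => e Q) ?_ ?_ ?_ ?_
    · intro Q hQ
      rw [Finset.mem_filter] at hQ
      rw [Fintype.mem_piFinset]
      intro i
      rw [Finset.mem_filter]
      exact ⟨he Q hQ.1 i, (hle P hP Q hQ.1).mp hQ.2 i⟩
    · intro Q hQ R hR hQR
      rw [Finset.mem_filter] at hQ hR
      refine le_antisymm ((hle Q hQ.1 R hR.1).mpr fun i => ?_) ((hle R hR.1 Q hQ.1).mpr fun i => ?_)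
      · exact (congrFun hQR i).le
      · exact (congrFun hQR i).ge
    · intro R hR
      rw [Fintype.mem_piFinset] at hR
      obtain ⟨Q, hQ, rfl⟩ := hsurj R fun i => (Finset.mem_filter.mp (hR i)).1
      refine ⟨Q, ?_, rfl⟩
      rw [Finset.mem_filter]
      exact ⟨hQ, (hle P hP Q hQ).mpr fun i => (Finset.mem_filter.mp (hR i)).2⟩
    · intro Q _
      rfl

end Pool.Agent.W2helper32.KR
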