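import Pool.Agent.W2helper32.KR.Hom

/-!
# The group generated by a commuting pair and a normalised subgroup, and its lifts
-/

set_option autoImplicit false

open scoped BigOperators Classical

noncomputable section

namespace Pool.Agent.W2helper32.KR

open Pool.Agent.Y63.KR Pool.Agent.Q90.WR

section

variable {Γ : Type} [Group Γ]

theorem evh_norm {x y : Γ} (h : x * y = y * x) {U : Subgroup Γ} (hx : conjSub x U = U)
    (hy : conjSub y U = U) (c : Z2) : evh x y h c ∈ Subgroup.normalizer (U : Set Γ) := by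
  rw [conjSub_eq_iff] at hx hy
  exact Subgroup.mul_mem _ (Subgroup.zpow_mem _ hx _) (Subgroup.zpow_mem _ hy _)

/-- the group of the pairs `(u x^a y^b, (a, b))`, `u ∈ U` -/
def tor (x y : Γ) (h : x * y = y * x) (U : Subgroup Γ) (hx : conjSub x U = U)
    (hy : conjSub y U = U) : Subgroup (Γ × Z2) where
  carrier := {t | t.1 * (evh x y h t.2)⁻¹ ∈ U}
  one_mem' := by
    change (1 : Γ) * (evh x y h 1)⁻¹ ∈ U
    rw [map_one, inv_one, mul_one]
    exact U.one_mem
  mul_mem' := by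
    intro s t hs ht
    have h1 := (Subgroup.mem_normalizer_iff.mp (evh_norm h hx hy s.2) _).mp ht
    have h2 := U.mul_mem hs h1
    change s.1 * t.1 * (evh x y h (s.2 * t.2))⁻¹ ∈ U
    have e : s.1 * t.1 * (evh x y h (s.2 * t.2))⁻¹ = s.1 * (evh x y h s.2)⁻¹ *
        (evh x y h s.2 * (t.1 * (evh x y h t.2)⁻¹) * (evh x y h s.2)⁻¹) := by
      rw [map_mul]
      group
    rw [e]
    exact h2
  inv_mem' := by
    intro s hs
    have h0 := Subgroup.inv_mem _ (evh_norm h hx hy s.2)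
    have h1 := (Subgroup.mem_normalizer_iff.mp h0 _).mp (U.inv_mem hs)
    change s.1⁻¹ * (evh x y h (s.2⁻¹))⁻¹ ∈ U
    have e : s.1⁻¹ * (evh x y h (s.2⁻¹))⁻¹ = (evh x y h s.2)⁻¹ * (s.1 * (evh x y h s.2)⁻¹)⁻¹ *
        ((evh x y h s.2)⁻¹)⁻¹ := by
      rw [map_inv]
      group
    rw [e]
    exact h1

variable {x y : Γ} {h : x * y = y * x} {U : Subgroup Γ} {hx : conjSub x U = U}
  {hy : conjSub y U = U}

theorem mem_tor {t : Γ × Z2} : t ∈ tor x y h U hx hy ↔ t.1 * (evh x y h t.2)⁻¹ ∈ U := Iff.rfl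

/-- the first projection -/
def pr (x y : Γ) (h : x * y = y * x) (U : Subgroup Γ) (hx : conjSub x U = U)
    (hy : conjSub y U = U) : tor x y h U hx hy →* Γ :=
  (MonoidHom.fst Γ Z2).comp (tor x y h U hx hy).subtype

/-- the second projection -/
def sg (x y : Γ) (h : x * y = y * x) (U : Subgroup Γ) (hx : conjSub x U = U)
    (hy : conjSub y U = U) : tor x y h U hx hy →* Z2 :=
  (MonoidHom.snd Γ Z2).comp (tor x y h U hx hy).subtype

theorem pr_apply (t : tor x y h U hx hy) : pr x y h U hx hy t = t.1.1 := rfl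

theorem sg_apply (t : tor x y h U hx hy) : sg x y h U hx hy t = t.1.2 := rfl

/-- the element over `x` -/
def t1 (x y : Γ) (h : x * y = y * x) (U : Subgroup Γ) (hx : conjSub x U = U)
    (hy : conjSub y U = U) : tor x y h U hx hy :=
  ⟨(x, g1), by
    rw [mem_tor, evh_g1, mul_inv_cancel]
    exact U.one_mem⟩

/-- the element over `y` -/
def t2 (x y : Γ) (h : x * y = y * x) (U : Subgroup Γ) (hx : conjSub x U = U)
    (hy : conjSub y U = U) : tor x y h U hx hy :=
  ⟨(y, g2), by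
    rw [mem_tor, evh_g2, mul_inv_cancel]
    exact U.one_mem⟩

theorem t_comm : t1 x y h U hx hy * t2 x y h U hx hy = t2 x y h U hx hy * t1 x y h U hx hy :=
  Subtype.ext (Prod.ext h g_comm)

theorem mem_ker_sg {t : tor x y h U hx hy} : t ∈ (sg x y h U hx hy).ker ↔ t.1.1 ∈ U ∧ t.1.2 = 1 := by
  rw [MonoidHom.mem_ker, sg_apply]
  constructor
  · intro h1
    refine ⟨?_, h1⟩
    have h2 := mem_tor.mp t.2
    rwa [h1, map_one, inv_one, mul_one] at h2
  · exact fun h1 => h1.2

theorem sg_surj : Function.Surjective (sg x y h U hx hy) := by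
  intro c
  refine ⟨⟨(evh x y h c, c), ?_⟩, rfl⟩
  rw [mem_tor, mul_inv_cancel]
  exact U.one_mem

theorem ker_sg_pgroup {p : ℕ} (hU : IsPGroup p U) : IsPGroup p (sg x y h U hx hy).ker := by
  rintro ⟨t, ht⟩
  have ht' := mem_ker_sg.mp ht
  obtain ⟨k, hk⟩ := hU ⟨t.1.1, ht'.1⟩
  refine ⟨k, ?_⟩
  apply Subtype.ext
  apply Subtype.ext
  refine Prod.ext ?_ ?_
  · have := congrArg Subtype.val hk
    simpa using this
  · change (t.1.2) ^ (p ^ k) = 1
    rw [ht'.2, one_pow]

/-- decomposition of the elements -/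
theorem tor_decomp (t : tor x y h U hx hy) : ∃ s ∈ (sg x y h U hx hy).ker,
    t = s * (t1 x y h U hx hy ^ t.1.2.toAdd.1 * t2 x y h U hx hy ^ t.1.2.toAdd.2) := by
  refine ⟨t * (t1 x y h U hx hy ^ t.1.2.toAdd.1 * t2 x y h U hx hy ^ t.1.2.toAdd.2)⁻¹, ?_, ?_⟩
  · rw [MonoidHom.mem_ker, map_mul, map_inv, map_mul, map_zpow, map_zpow]
    have e1 : sg x y h U hx hy (t1 x y h U hx hy) = g1 := rfl
    have e2 : sg x y h U hx hy (t2 x y h U hx hy) = g2 := rfl
    rw [e1, e2, ← Z2_eq, sg_apply, mul_inv_cancel]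
  · group

theorem hom_tor_ext {K : Type} [Group K] {φ φ' : tor x y h U hx hy →* K}
    (e1 : φ (t1 x y h U hx hy) = φ' (t1 x y h U hx hy))
    (e2 : φ (t2 x y h U hx hy) = φ' (t2 x y h U hx hy))
    (e3 : ∀ s ∈ (sg x y h U hx hy).ker, φ s = φ' s) : φ = φ' := by
  refine MonoidHom.ext fun t => ?_
  obtain ⟨s, hs, hst⟩ := tor_decomp t
  rw [hst]
  simp only [map_mul, map_zpow, e1, e2, e3 s hs]

theorem tor_fg [Finite Γ] : Group.FG (tor x y h U hx hy) := by
  rw [Group.fg_iff]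
  have hfin : Finite (sg x y h U hx hy).ker := by
    refine Finite.of_injective (fun s : (sg x y h U hx hy).ker => s.1.1.1) ?_
    rintro ⟨s, hs⟩ ⟨s', hs'⟩ e
    apply Subtype.ext
    apply Subtype.ext
    refine Prod.ext e ?_
    rw [(mem_ker_sg.mp hs).2, (mem_ker_sg.mp hs').2]
  refine ⟨{t1 x y h U hx hy, t2 x y h U hx hy} ∪ ((sg x y h U hx hy).ker : Set _), ?_,
    (Set.toFinite _).union (Set.toFinite _)⟩
  rw [eq_top_iff]
  intro t _
  obtain ⟨s, hs, hst⟩ := tor_decomp t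
  rw [hst]
  set A : Set (tor x y h U hx hy) := {t1 x y h U hx hy, t2 x y h U hx hy} ∪
    ((sg x y h U hx hy).ker : Set _) with hA
  have m1 : t1 x y h U hx hy ∈ A := Or.inl (Or.inl rfl)
  have m2 : t2 x y h U hx hy ∈ A := Or.inl (Or.inr rfl)
  have m3 : s ∈ A := Or.inr hs
  exact Subgroup.mul_mem _ (Subgroup.subset_closure m3) (Subgroup.mul_mem _
    (Subgroup.zpow_mem _ (Subgroup.subset_closure m1) _)
    (Subgroup.zpow_mem _ (Subgroup.subset_closure m2) _))

/-- the sum over the homomorphisms of a subgroup of finite index -/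
theorem sum_stab {p : ℕ} [Fact p.Prime] [Finite Γ] (hU : IsPGroup p U)
    (S : Subgroup (tor x y h U hx hy)) (hS : S.index ≠ 0) (G : Type) [Group G] [Fintype G] :
    ∃ _ : Finite (S →* G), ∀ [Fintype (S →* G)], ∑ ρ : S →* G, W p (Set.range ρ) = kap p G := by
  have : Group.FG (tor x y h U hx hy) := tor_fg
  have : S.FiniteIndex := ⟨hS⟩
  have hfg : Group.FG S := inferInstance
  refine ⟨finite_hom S G, ?_⟩
  intro _
  have h1 : (S.map (sg x y h U hx hy)).index ≠ 0 := by
    intro h0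
    have h2 := Subgroup.index_map_dvd S (f := sg x y h U hx hy) sg_surj
    rw [h0] at h2
    exact hS (zero_dvd_iff.mp h2)
  obtain ⟨e⟩ := exists_iso _ h1
  refine sum_hom (e.toMonoidHom.comp ((sg x y h U hx hy).subgroupMap S)) ?_ ?_
  · exact e.surjective.comp ((sg x y h U hx hy).subgroupMap_surjective S)
  · rintro ⟨s, hs⟩
    have h2 : (s : tor x y h U hx hy) ∈ (sg x y h U hx hy).ker := by
      rw [MonoidHom.mem_ker] at hs ⊢
      have h3 : (sg x y h U hx hy).subgroupMap S s = 1 := e.injective (by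
        rw [map_one]
        exact hs)
      exact congrArg Subtype.val h3
    obtain ⟨k, hk⟩ := ker_sg_pgroup hU ⟨s.1, h2⟩
    refine ⟨k, ?_⟩
    have h5 : s.1 ^ p ^ k = 1 := congrArg Subtype.val hk
    exact Subtype.ext (Subtype.ext h5)

end

section lifts

variable {Γ H : Type} [Group Γ] [Group H] (f : Γ →* H)

/-- `(x, y, U)` lifts `(h, k, V)` -/
structure IsLift (h k : H) (V : Subgroup H) (q : Γ × Γ × Subgroup Γ) : Prop where
  fx : f q.1 = h
  fy : f q.2.1 = k
  comm : q.1 * q.2.1 = q.2.1 * q.1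
  nx : conjSub q.1 q.2.2 = q.2.2
  ny : conjSub q.2.1 q.2.2 = q.2.2
  inf : q.2.2 ⊓ f.ker = ⊥
  map : q.2.2.map f = V

variable {f} {h k : H} {V : Subgroup H} (hhk : h * k = k * h) (hh : conjSub h V = V)
  (hk : conjSub k V = V)

theorem inj_of_inf {U : Subgroup Γ} (hU : U ⊓ f.ker = ⊥) {u u' : Γ} (h1 : u ∈ U) (h2 : u' ∈ U)
    (h3 : f u = f u') : u = u' := by
  have h4 : u * u'⁻¹ ∈ U ⊓ f.ker := by
    refine ⟨U.mul_mem h1 (U.inv_mem h2), ?_⟩
    change f (u * u'⁻¹) = 1
    rw [map_mul, map_inv, h3, mul_inv_cancel]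
  rw [hU, Subgroup.mem_bot] at h4
  exact mul_inv_eq_one.mp h4

/-- the triple given by a homomorphism -/
def toLift (φ : tor h k hhk V hh hk →* Γ) : Γ × Γ × Subgroup Γ :=
  (φ (t1 h k hhk V hh hk), φ (t2 h k hhk V hh hk), (sg h k hhk V hh hk).ker.map φ)

theorem conj_map_normal {S : Type} [Group S] (φ : S →* Γ) (K : Subgroup S) [hn : K.Normal] (s : S) :
    conjSub (φ s) (K.map φ) = K.map φ := by
  ext z
  rw [mem_conjSub]
  constructor
  · rintro ⟨k, hk, hk'⟩
    refine ⟨s * k * s⁻¹, hn.conj_mem k hk s, ?_⟩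
    rw [map_mul, map_mul, map_inv, hk']
    group
  · rintro ⟨k, hk, rfl⟩
    refine ⟨s⁻¹ * k * s, ?_, ?_⟩
    · have := hn.conj_mem k hk s⁻¹
      rwa [inv_inv] at this
    · rw [map_mul, map_mul, map_inv]

theorem isLift_toLift (φ : tor h k hhk V hh hk →* Γ) (hφ : f.comp φ = pr h k hhk V hh hk) :
    IsLift f h k V (toLift hhk hh hk φ) := by
  have h0 : ∀ t, f (φ t) = t.1.1 := fun t => DFunLike.congr_fun hφ t
  refine ⟨h0 _, h0 _, ?_, conj_map_normal φ _ _, conj_map_normal φ _ _, ?_, ?_⟩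
  · change φ _ * φ _ = φ _ * φ _
    rw [← map_mul, t_comm, map_mul]
  · rw [eq_bot_iff]
    rintro _ ⟨⟨t, ht, rfl⟩, h2⟩
    have h3 := mem_ker_sg.mp ht
    have h2' : f (φ t) = 1 := h2
    rw [h0] at h2'
    have h4 : t = 1 := Subtype.ext (Prod.ext h2' h3.2)
    rw [h4, map_one]
    exact Subgroup.one_mem _
  · ext v
    constructor
    · rintro ⟨_, ⟨t, ht, rfl⟩, rfl⟩
      rw [h0]
      exact (mem_ker_sg.mp ht).1
    · intro hv
      have hm : ((v, 1) : H × Z2) ∈ tor h k hhk V hh hk := by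
        rw [mem_tor, map_one, inv_one, mul_one]
        exact hv
      exact ⟨φ ⟨(v, 1), hm⟩, ⟨⟨(v, 1), hm⟩, mem_ker_sg.mpr ⟨hv, rfl⟩, rfl⟩, h0 _⟩

theorem toLift_inj {φ φ' : tor h k hhk V hh hk →* Γ} (hφ : f.comp φ = pr h k hhk V hh hk)
    (hφ' : f.comp φ' = pr h k hhk V hh hk) (e : toLift hhk hh hk φ = toLift hhk hh hk φ') :
    φ = φ' := by
  have h0 : ∀ t, f (φ t) = t.1.1 := fun t => DFunLike.congr_fun hφ t
  have h0' : ∀ t, f (φ' t) = t.1.1 := fun t => DFunLike.congr_fun hφ' t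
  refine hom_tor_ext (congrArg Prod.fst e) (congrArg (fun q => q.2.1) e) fun s hs => ?_
  have e3 : (sg h k hhk V hh hk).ker.map φ = (sg h k hhk V hh hk).ker.map φ' :=
    congrArg (fun q => q.2.2) e
  refine inj_of_inf (isLift_toLift hhk hh hk φ hφ).inf ⟨s, hs, rfl⟩ ?_ (by rw [h0, h0'])
  change φ' s ∈ (sg h k hhk V hh hk).ker.map φ
  rw [e3]
  exact ⟨s, hs, rfl⟩

theorem exists_toLift {q : Γ × Γ × Subgroup Γ} (hq : IsLift f h k V q) :
    ∃ φ : tor h k hhk V hh hk →* Γ, f.comp φ = pr h k hhk V hh hk ∧ toLift hhk hh hk φ = q := by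
  obtain ⟨x, y, U⟩ := q
  obtain ⟨fx, fy, comm, nx, ny, inf, map⟩ := hq
  dsimp only at fx fy comm nx ny inf map
  have hev : ∀ c, f (evh x y comm c) = evh h k hhk c := by
    intro c
    change f (x ^ c.toAdd.1 * y ^ c.toAdd.2) = h ^ c.toAdd.1 * k ^ c.toAdd.2
    rw [map_mul, map_zpow, map_zpow, fx, fy]
  let F : tor x y comm U nx ny →* tor h k hhk V hh hk :=
    { toFun := fun t => ⟨(f t.1.1, t.1.2), by
        rw [mem_tor, ← hev, ← map_inv, ← map_mul, ← map]
        exact ⟨_, mem_tor.mp t.2, rfl⟩⟩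
      map_one' := Subtype.ext (Prod.ext (map_one f) rfl)
      map_mul' := fun s t => Subtype.ext (Prod.ext (map_mul f _ _) rfl) }
  have hF : Function.Bijective F := by
    constructor
    · rw [injective_iff_map_eq_one]
      intro t ht
      have h1 : f t.1.1 = 1 := congrArg (fun s => s.1.1) ht
      have h2 : t.1.2 = 1 := congrArg (fun s => s.1.2) ht
      have h3 := mem_tor.mp t.2
      rw [h2, map_one, inv_one, mul_one] at h3
      have h4 : t.1.1 ∈ U ⊓ f.ker := ⟨h3, h1⟩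
      rw [inf, Subgroup.mem_bot] at h4
      exact Subtype.ext (Prod.ext h4 h2)
    · rintro ⟨⟨w, c⟩, ht⟩
      have h1 := mem_tor.mp ht
      rw [← map] at h1
      obtain ⟨u, hu, hfu⟩ := h1
      refine ⟨⟨(u * evh x y comm c, c), ?_⟩, ?_⟩
      · rw [mem_tor]
        change u * evh x y comm c * (evh x y comm c)⁻¹ ∈ U
        rw [mul_inv_cancel_right]
        exact hu
      · apply Subtype.ext
        refine Prod.ext ?_ rfl
        change f (u * evh x y comm c) = w
        rw [map_mul, hev, hfu]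
        change w * (evh h k hhk c)⁻¹ * evh h k hhk c = w
        rw [inv_mul_cancel_right]
  let e := MulEquiv.ofBijective F hF
  have he : ∀ t, F (e.symm t) = t := fun t => e.apply_symm_apply t
  have he' : ∀ t, e.symm (F t) = t := fun t => e.symm_apply_apply t
  have hf : f.comp ((pr x y comm U nx ny).comp e.symm.toMonoidHom) = pr h k hhk V hh hk := by
    refine MonoidHom.ext fun t => ?_
    exact congrArg (fun s => s.1.1) (he t)
  refine ⟨(pr x y comm U nx ny).comp e.symm.toMonoidHom, hf, ?_⟩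
  have a1 : e.symm (t1 h k hhk V hh hk) = t1 x y comm U nx ny := by
    rw [← he' (t1 x y comm U nx ny)]
    congr 1
    exact Subtype.ext (Prod.ext fx.symm rfl)
  have a2 : e.symm (t2 h k hhk V hh hk) = t2 x y comm U nx ny := by
    rw [← he' (t2 x y comm U nx ny)]
    congr 1
    exact Subtype.ext (Prod.ext fy.symm rfl)
  refine Prod.ext ?_ (Prod.ext ?_ ?_)
  · change pr x y comm U nx ny (e.symm (t1 h k hhk V hh hk)) = x
    rw [a1]
    rfl
  · change pr x y comm U nx ny (e.symm (t2 h k hhk V hh hk)) = y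
    rw [a2]
    rfl
  · change (sg h k hhk V hh hk).ker.map ((pr x y comm U nx ny).comp e.symm.toMonoidHom) = U
    ext u
    constructor
    · rintro ⟨t, ht, rfl⟩
      change (e.symm t).1.1 ∈ U
      have h1 := mem_ker_sg.mp ht
      have h2 := mem_tor.mp (e.symm t).2
      have h3 : (e.symm t).1.2 = 1 := by
        have := congrArg (fun s => s.1.2) (he t)
        exact this.trans h1.2
      rwa [h3, map_one, inv_one, mul_one] at h2
    · intro hu
      have hm : ((u, 1) : Γ × Z2) ∈ tor x y comm U nx ny := by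
        rw [mem_tor, map_one, inv_one, mul_one]
        exact hu
      refine ⟨F ⟨(u, 1), hm⟩, ?_, ?_⟩
      · refine mem_ker_sg.mpr ⟨?_, rfl⟩
        change f u ∈ V
        rw [← map]
        exact ⟨u, hu, rfl⟩
      · change (e.symm (F ⟨(u, 1), hm⟩)).1.1 = u
        rw [he']

end lifts

end Pool.Agent.W2helper32.KR
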