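import Pool.Agent.W2helper32.KR.Orb
import Pool.Agent.W2helper32.KR.Tor

/-!
# Invariant `p`-subgroups of wreath products
-/

set_option autoImplicit false

open scoped BigOperators Classical

noncomputable section

namespace Pool.Agent.W2helper32.KR

open Pool.Agent.Y63.KR Pool.Agent.Q90.WR

/-- The wreath product `G ≀ H` for the action of `H` on `X`: the semidirect product of the group of
the functions `X → G` and `H`, where `h` maps `f` to `x ↦ f (h⁻¹ x)`. -/
abbrev WrX (G H X : Type) [Group G] [Group H] [MulAction H X] : Type :=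
  (X → G) ⋊[mulAutArrow (G := H) (A := X) (M := G)] H

section

variable {G H X : Type} [Group G] [Group H] [MulAction H X]

/-- the cocycle of the action on functions -/
def cc (γ : WrX G H X) (z : X) : G := γ.left (γ.right • z)

theorem aut_apply (h : H) (f : X → G) (z : X) :
    (mulAutArrow (G := H) (A := X) (M := G) h) f z = f (h⁻¹ • z) := rfl

theorem cc_mul (γ δ : WrX G H X) (z : X) : cc (γ * δ) z = cc γ (δ.right • z) * cc δ z := by
  unfold cc
  rw [SemidirectProduct.mul_left, SemidirectProduct.mul_right, Pi.mul_apply, aut_apply, mul_smul,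
    inv_smul_smul]

theorem conj_inl' (γ : WrX G H X) (f : X → G) :
    γ⁻¹ * SemidirectProduct.inl f * γ =
      SemidirectProduct.inl (fun w => (cc γ w)⁻¹ * f (γ.right • w) * cc γ w) := by
  refine SemidirectProduct.ext ?_ ?_
  · funext w
    simp only [SemidirectProduct.mul_left, SemidirectProduct.mul_right, SemidirectProduct.inv_left,
      SemidirectProduct.inv_right, SemidirectProduct.left_inl, SemidirectProduct.right_inl,
      Pi.mul_apply, aut_apply, Pi.inv_apply, inv_inv, mul_one, cc]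
  · simp

theorem conj_inl (γ : WrX G H X) (f : X → G) :
    γ * SemidirectProduct.inl f * γ⁻¹ =
      SemidirectProduct.inl (fun w => γ.left w * f (γ.right⁻¹ • w) * (γ.left w)⁻¹) := by
  have h := conj_inl' γ (fun w => γ.left w * f (γ.right⁻¹ • w) * (γ.left w)⁻¹)
  have h1 : (fun w => (cc γ w)⁻¹ * (γ.left (γ.right • w) * f (γ.right⁻¹ • γ.right • w) *
      (γ.left (γ.right • w))⁻¹) * cc γ w) = f := by
    funext w
    rw [inv_smul_smul]
    unfold cc
    group
  rw [h1] at h
  rw [← h]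
  group

/-- the projections of the intersection with the base group -/
def fib (Q : Subgroup (WrX G H X)) (z : X) : Subgroup G :=
  (Q.comap SemidirectProduct.inl).map (Pi.evalMonoidHom (fun _ : X => G) z)

theorem mem_fib {Q : Subgroup (WrX G H X)} {z : X} {g : G} :
    g ∈ fib Q z ↔ ∃ f : X → G, (SemidirectProduct.inl f : WrX G H X) ∈ Q ∧ f z = g := Iff.rfl

/-- the product of a family of subgroups -/
def piS (F : X → Subgroup G) : Subgroup (WrX G H X) :=
  (Subgroup.pi Set.univ F).map SemidirectProduct.inl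

theorem mem_piS {F : X → Subgroup G} {γ : WrX G H X} :
    γ ∈ (piS F : Subgroup (WrX G H X)) ↔ γ.right = 1 ∧ ∀ z, γ.left z ∈ F z := by
  constructor
  · rintro ⟨f, hf, rfl⟩
    exact ⟨rfl, fun z => hf z (Set.mem_univ z)⟩
  · rintro ⟨h1, h2⟩
    exact ⟨γ.left, fun z _ => h2 z, SemidirectProduct.ext rfl h1.symm⟩

theorem fib_conj (γ : WrX G H X) (Q : Subgroup (WrX G H X)) (z : X) :
    fib (conjSub γ Q) (γ.right • z) = conjSub (cc γ z) (fib Q z) := by
  ext g
  rw [mem_conjSub, mem_fib, mem_fib]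
  constructor
  · rintro ⟨f, hf, rfl⟩
    rw [mem_conjSub, conj_inl'] at hf
    exact ⟨_, hf, rfl⟩
  · rintro ⟨f, hf, hfz⟩
    refine ⟨fun w => γ.left w * f (γ.right⁻¹ • w) * (γ.left w)⁻¹, ?_, ?_⟩
    · rw [mem_conjSub, ← conj_inl]
      have : γ⁻¹ * (γ * SemidirectProduct.inl f * γ⁻¹) * γ = SemidirectProduct.inl f := by group
      rw [this]
      exact hf
    · dsimp only
      rw [inv_smul_smul, hfz]
      unfold cc
      group

theorem piS_conj {γ : WrX G H X} {F : X → Subgroup G}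
    (h : ∀ z, F (γ.right • z) = conjSub (cc γ z) (F z)) :
    conjSub γ (piS F : Subgroup (WrX G H X)) = piS F := by
  ext δ
  rw [mem_conjSub]
  constructor
  · intro h1
    have h2 := (mem_piS.mp h1).1
    have h3 : δ.right = 1 := by
      simp only [SemidirectProduct.mul_right, SemidirectProduct.inv_right] at h2
      have : δ.right = γ.right * (γ.right⁻¹ * δ.right * γ.right) * γ.right⁻¹ := by group
      rw [this, h2]
      group
    have h4 : δ = SemidirectProduct.inl δ.left := SemidirectProduct.ext rfl h3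
    rw [h4, conj_inl', mem_piS] at h1
    rw [mem_piS]
    refine ⟨h3, fun z => ?_⟩
    have h5 := h1.2 (γ.right⁻¹ • z)
    rw [SemidirectProduct.left_inl] at h5
    rw [← mem_conjSub, ← h, smul_inv_smul] at h5
    exact h5
  · intro h1
    have h3 := (mem_piS.mp h1).1
    have h4 : δ = SemidirectProduct.inl δ.left := SemidirectProduct.ext rfl h3
    rw [h4, conj_inl', mem_piS]
    refine ⟨rfl, fun z => ?_⟩
    rw [SemidirectProduct.left_inl, ← mem_conjSub, ← h]
    exact (mem_piS.mp h1).2 _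

theorem fib_mono {Q R : Subgroup (WrX G H X)} (h : Q ≤ R) (z : X) : fib Q z ≤ fib R z :=
  Subgroup.map_mono (Subgroup.comap_mono h)

theorem fib_le_iff {Q : Subgroup (WrX G H X)} (hQ : Q ≤ (SemidirectProduct.rightHom).ker)
    {F : X → Subgroup G} : (fun z => fib Q z) ≤ F ↔ Q ≤ piS F := by
  constructor
  · intro h γ hγ
    have h1 : γ.right = 1 := hQ hγ
    rw [mem_piS]
    refine ⟨h1, fun z => h z ?_⟩
    have h4 : γ = SemidirectProduct.inl γ.left := SemidirectProduct.ext rfl h1
    rw [mem_fib]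
    exact ⟨γ.left, h4 ▸ hγ, rfl⟩
  · intro h z g hg
    obtain ⟨f, hf, rfl⟩ := mem_fib.mp hg
    exact (mem_piS.mp (h hf)).2 z

theorem piS_le_ker (F : X → Subgroup G) :
    (piS F : Subgroup (WrX G H X)) ≤ (SemidirectProduct.rightHom).ker :=
  fun _ h => (mem_piS.mp h).1

theorem isPGroup_piS [Finite X] {p : ℕ} {F : X → Subgroup G} (h : ∀ z, IsPGroup p (F z)) :
    IsPGroup p (piS F : Subgroup (WrX G H X)) := by
  have : Fintype X := Fintype.ofFinite X
  refine IsPGroup.map ?_ _
  rintro ⟨f, hf⟩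
  have h1 : ∀ z, ∃ k : ℕ, (f z) ^ p ^ k = 1 := by
    intro z
    obtain ⟨k, hk⟩ := h z ⟨f z, hf z (Set.mem_univ z)⟩
    exact ⟨k, congrArg Subtype.val hk⟩
  choose k hk using h1
  refine ⟨∑ z, k z, ?_⟩
  apply Subtype.ext
  funext z
  change (f z) ^ p ^ (∑ z, k z) = 1
  have h2 : ∑ w, k w = k z + ∑ w ∈ Finset.univ.erase z, k w :=
    (Finset.add_sum_erase _ _ (Finset.mem_univ z)).symm
  rw [h2, pow_add, pow_mul, hk, one_pow]

theorem isPGroup_fib {p : ℕ} {Q : Subgroup (WrX G H X)} (h : IsPGroup p Q) (z : X) :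
    IsPGroup p (fib Q z) :=
  (h.comap_of_injective _ SemidirectProduct.inl_injective).map _

theorem piS_ne_bot {F : X → Subgroup G} (h : F ≠ ⊥) : (piS F : Subgroup (WrX G H X)) ≠ ⊥ := by
  intro h1
  apply h
  funext z
  rw [Pi.bot_apply, eq_bot_iff]
  intro g hg
  have h2 : (SemidirectProduct.inl (Pi.mulSingle z g) : WrX G H X) ∈
      (piS F : Subgroup (WrX G H X)) := by
    rw [mem_piS]
    refine ⟨rfl, fun w => ?_⟩
    rw [SemidirectProduct.left_inl]
    by_cases hw : w = z
    · subst hw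
      rw [Pi.mulSingle_eq_same]
      exact hg
    · rw [Pi.mulSingle_eq_of_ne hw]
      exact (F w).one_mem
  rw [h1, Subgroup.mem_bot] at h2
  have h3 := congrFun (congrArg SemidirectProduct.left h2) z
  rw [SemidirectProduct.left_inl, Pi.mulSingle_eq_same] at h3
  exact h3

theorem fib_ne_bot {Q : Subgroup (WrX G H X)} (hQ : Q ≤ (SemidirectProduct.rightHom).ker)
    (h : Q ≠ ⊥) : (fun z => fib Q z) ≠ ⊥ := by
  intro h1
  apply h
  rw [eq_bot_iff]
  have h2 : Q ≤ piS (⊥ : X → Subgroup G) := (fib_le_iff hQ).mp h1.le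
  refine h2.trans ?_
  intro γ hγ
  rw [mem_piS] at hγ
  rw [Subgroup.mem_bot]
  refine SemidirectProduct.ext ?_ hγ.1
  funext z
  exact hγ.2 z

end

instance instFiniteWrX (G H X : Type) [Group G] [Group H] [MulAction H X] [Finite G] [Finite H]
    [Finite X] : Finite (WrX G H X) :=
  Finite.of_equiv _ SemidirectProduct.equivProd.symm

theorem card_WrX (G H X : Type) [Group G] [Group H] [MulAction H X] [Finite G] [Finite X] :
    Nat.card (WrX G H X) = Nat.card G ^ Nat.card X * Nat.card H := by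
  rw [Nat.card_congr SemidirectProduct.equivProd, Nat.card_prod, Nat.card_fun]

section galois

variable {G H X : Type} [Group G] [Group H] [MulAction H X] [Finite G] [Finite H] [Finite X]
  {p : ℕ}

/-- the nontrivial `p`-subgroups of the base group normalised by `K` -/
def bas (p : ℕ) (K : Set (WrX G H X)) : Finset (Subgroup (WrX G H X)) :=
  (Set.toFinite {Q : Subgroup (WrX G H X) | IsPGroup p Q ∧ (∀ x ∈ K, conjSub x Q = Q) ∧
    Q ≤ (SemidirectProduct.rightHom).ker ∧ Q ≠ ⊥}).toFinset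

theorem mem_bas {K : Set (WrX G H X)} {Q : Subgroup (WrX G H X)} : Q ∈ bas p K ↔
    IsPGroup p Q ∧ (∀ x ∈ K, conjSub x Q = Q) ∧ Q ≤ (SemidirectProduct.rightHom).ker ∧ Q ≠ ⊥ := by
  simp [bas]

theorem conjSub_inf {Γ : Type} [Group Γ] (γ : Γ) (P Q : Subgroup Γ) :
    conjSub γ (P ⊓ Q) = conjSub γ P ⊓ conjSub γ Q := by
  ext x
  rw [Subgroup.mem_inf, mem_conjSub, mem_conjSub, mem_conjSub, Subgroup.mem_inf]

theorem conjSub_sup {Γ : Type} [Group Γ] (γ : Γ) (P Q : Subgroup Γ) :
    conjSub γ (P ⊔ Q) = conjSub γ P ⊔ conjSub γ Q :=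
  Subgroup.map_sup _ _ _

theorem conjSub_normal {Γ : Type} [Group Γ] (γ : Γ) (N : Subgroup Γ) [hN : N.Normal] :
    conjSub γ N = N := by
  rw [conjSub_eq_iff, Subgroup.normalizer_eq_top_iff.mpr hN]
  trivial

theorem conjSub_of_mem {Γ : Type} [Group Γ] {γ : Γ} {P : Subgroup Γ} (h : γ ∈ P) :
    conjSub γ P = P := by
  rw [conjSub_eq_iff]
  exact Subgroup.le_normalizer h

/-- first Galois connection -/
theorem cs_upper [Fact p.Prime] {x y : WrX G H X} {U : Subgroup (WrX G H X)}
    (hU : U ∈ inv p ({x, y} : Set (WrX G H X)))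
    (hUN : U ⊓ (SemidirectProduct.rightHom).ker = ⊥) :
    cs ((inv p ({x, y} : Set (WrX G H X))).filter
      (fun P => ¬ P ⊓ (SemidirectProduct.rightHom).ker = ⊥ ∧ U < P)) =
      cs (bas p (({x, y} : Set (WrX G H X)) ∪ U)) := by
  symm
  have hU' := mem_inv.mp hU
  refine cs_galois (fun Q => Q ⊔ U) (fun P => P ⊓ (SemidirectProduct.rightHom).ker) ?_ ?_ ?_
  · intro Q hQ
    obtain ⟨h1, h2, h3, h4⟩ := mem_bas.mp hQ
    rw [Finset.mem_filter, mem_inv]
    refine ⟨⟨?_, ?_⟩, ?_, ?_⟩
    · refine IsPGroup.to_sup_of_normal_left' h1 hU'.1 fun u hu => ?_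
      exact conjSub_eq_iff.mp (h2 u (Or.inr hu))
    · intro z hz
      rw [conjSub_sup, h2 z (Or.inl hz), hU'.2 z hz]
    · intro h5
      apply h4
      rw [eq_bot_iff, ← h5]
      exact le_inf le_sup_left h3
    · refine lt_of_le_of_ne le_sup_right fun h5 => ?_
      apply h4
      rw [eq_bot_iff, ← hUN]
      refine le_inf ?_ h3
      conv_rhs => rw [h5]
      exact le_sup_left
  · intro P hP
    rw [Finset.mem_filter, mem_inv] at hP
    obtain ⟨⟨h1, h2⟩, h3, h4⟩ := hP
    rw [mem_bas]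
    refine ⟨h1.to_le inf_le_left, ?_, inf_le_right, h3⟩
    rintro z (hz | hz)
    · rw [conjSub_inf, h2 z hz, conjSub_normal]
    · rw [conjSub_inf, conjSub_of_mem (h4.le hz), conjSub_normal]
  · intro Q hQ P hP
    obtain ⟨h1, h2, h3, h4⟩ := mem_bas.mp hQ
    rw [Finset.mem_filter] at hP
    constructor
    · exact fun h => le_inf (le_sup_left.trans h) h3
    · exact fun h => sup_le (h.trans inf_le_left) hP.2.2.le

/-- the cocycle of a homomorphism -/
def coh {T : Type} [Group T] (φ : T →* WrX G H X) (t : T) (z : X) : G := cc (φ t) z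

/-- second Galois connection -/
theorem cs_lower {T : Type} [Group T] [MulAction T X] (φ : T →* WrX G H X)
    (hφ : ∀ (t : T) (z : X), t • z = (φ t).right • z) :
    cs (bas p (Set.range φ)) = cs ((fam p (coh φ)).filter (⊥ < ·)) := by
  refine cs_galois (fun Q z => fib Q z) (fun F => piS F) ?_ ?_ ?_
  · intro Q hQ
    obtain ⟨h1, h2, h3, h4⟩ := mem_bas.mp hQ
    rw [Finset.mem_filter, mem_fam]
    refine ⟨⟨fun z => isPGroup_fib h1 z, fun t z => ?_⟩, ?_⟩
    · have h5 := fib_conj (φ t) Q z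
      rw [h2 _ ⟨t, rfl⟩] at h5
      rw [hφ]
      exact h5
    · rw [bot_lt_iff_ne_bot]
      exact fib_ne_bot h3 h4
  · intro F hF
    rw [Finset.mem_filter, mem_fam] at hF
    rw [mem_bas]
    refine ⟨isPGroup_piS hF.1.1, ?_, piS_le_ker F, piS_ne_bot (bot_lt_iff_ne_bot.mp hF.2)⟩
    rintro _ ⟨t, rfl⟩
    refine piS_conj fun z => ?_
    rw [← hφ]
    exact hF.1.2 t z
  · intro Q hQ F _
    exact fib_le_iff (mem_bas.mp hQ).2.2.1

end galois

end Pool.Agent.W2helper32.KR
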