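import Pool.Agent.W2helper32.KR.Ext

/-!
# Characters of defect zero of wreath products
-/

set_option autoImplicit false
set_option linter.style.haveILetI false
set_option linter.unusedSectionVars false

open scoped BigOperators Classical

noncomputable section

namespace Pool.Agent.W2helper32.KR

open Pool.Agent.Helper884 Pool.Agent.K3h3.KB Pool.Agent.K3h3.MK Pool.Agent.K3h83.IN
open Pool.Agent.H254R3.IN (IsIrr mem_Irr)
open Pool.Agent.Q90.WR (DefZero numDefectZero_card defZero_iff fac_le)
open Pool.Agent.Y63.AWC (numDefectZero mult_spec)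
open IC (Irr)
open Polynomial

section general

variable {L Γ : Type} [Group L] [Fintype L] [Group Γ] [Fintype Γ] (j : L →* Γ)

/-- the inertia groups of the constituents of an irreducible character -/
theorem sum_inert (hj : Function.Injective j) (hN : j.range.Normal) (T : (L → ℂ) → Subgroup Γ)
    (hT : ∀ θ, IsIrr θ → ∀ x, x ∈ T θ ↔ fixes j θ x) {χ : Γ → ℂ} (hχ : IsIrr χ) :
    ∑ θ ∈ (Irr L).filter (fun θ => ov j θ χ), Nat.card (T θ) = Nat.card Γ := by
  haveI := hN
  have h1 : (fun l => χ (j l)) = ∑ θ ∈ Irr L, IC.B (fun l => χ (j l)) θ • θ := by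
    apply IC.expand
    intro g y
    have h2 := (show IC.IsIrrChar χ from hχ).isClass (j g) (j y)
    simpa only [map_mul, map_inv] using h2
  have h3 : ∀ θ ∈ Irr L, IC.B (fun l => χ (j l)) θ * θ 1 * (Nat.card Γ : ℂ) =
      if ov j θ χ then (ndeg χ : ℂ) * (Nat.card (T θ) : ℂ) else 0 := by
    intro θ hθ
    have hθ' := mem_Irr.mp hθ
    have h4 : IC.B (fun l => χ (j l)) θ = _ := (Pool.Agent.K3h96.IN.B_tr j hj θ χ).trans
      (mult_spec j.range hχ (Pool.Agent.K3h96.IN.tr_irr j hj hθ'))
    split_ifs with h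
    · have h5 := Pool.Agent.K3h96.IN.degree j hj hθ' (T θ) (hT θ hθ') hχ
        ((Pool.Agent.K3h96.IN.ov_iff_mult j hj hθ' hχ).mp h)
      rw [h4, h5, ← ndeg_cast hθ', ← Subgroup.card_mul_index (T θ)]
      push_cast
      ring
    · rw [ov_iff, not_not] at h
      rw [h, zero_mul, zero_mul]
  have h6 := congrFun h1 1
  simp only [map_one, Finset.sum_apply, Pi.smul_apply, smul_eq_mul] at h6
  have h7 : (ndeg χ : ℂ) * (Nat.card Γ : ℂ) =
      (ndeg χ : ℂ) * ∑ θ ∈ (Irr L).filter (fun θ => ov j θ χ), (Nat.card (T θ) : ℂ) := by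
    rw [ndeg_cast hχ, h6, Finset.sum_mul, Finset.sum_congr rfl h3, ← Finset.sum_filter,
      Finset.mul_sum, ← h6, ndeg_cast hχ]
  have h8 : (ndeg χ : ℂ) ≠ 0 := by
    exact_mod_cast (ndeg_pos hχ).ne'
  have h9 := mul_left_cancel₀ h8 h7
  exact_mod_cast h9.symm

theorem card_mul_wt {R : Type} [CommRing R] (w : ℕ →* R) (hj : Function.Injective j)
    (hN : j.range.Normal) (T : (L → ℂ) → Subgroup Γ)
    (hT : ∀ θ, IsIrr θ → ∀ x, x ∈ T θ ↔ fixes j θ x) :
    (Nat.card Γ : R) * wt w Γ = ∑ θ ∈ Irr L, (Nat.card (T θ) : R) * wo w j θ := by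
  have h1 : ∀ θ ∈ Irr L, (Nat.card (T θ) : R) * wo w j θ =
      ∑ χ ∈ Irr Γ, if ov j θ χ then (Nat.card (T θ) : R) * w (ndeg χ) else 0 := by
    intro θ _
    rw [wo_eq, Finset.mul_sum, Finset.sum_filter]
  rw [Finset.sum_congr rfl h1, Finset.sum_comm, wt_eq, Finset.mul_sum]
  refine Finset.sum_congr rfl fun χ hχ => ?_
  rw [← Finset.sum_filter, ← Finset.sum_mul, ← sum_inert j hj hN T hT (mem_Irr.mp hχ)]
  push_cast
  rfl

/-- the weighted form of Gallagher's theorem -/
theorem wo_ext {R : Type} [CommRing R] (w : ℕ →* R) {Q : Type} [Group Q] [Finite Q]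
    (hj : Function.Injective j) (t : Γ →* Q) (ht : Function.Surjective t) (hk : t.ker = j.range)
    {V : Type} [AddCommGroup V] [Module ℂ V] [FiniteDimensional ℂ V] (ρ : Representation ℂ Γ V)
    (h : IsIrr fun l => ρ.character (j l)) :
    wo w j (fun l => ρ.character (j l)) = w (ndeg fun l => ρ.character (j l)) * wt w Q := by
  haveI := Fintype.ofFinite Q
  obtain ⟨h1, h2, h3⟩ := Pool.Agent.K3h18.IN.t_S3g L Γ Q j hj t ht hk V ρ h
  rw [wo_eq, wt_eq, Finset.mul_sum]
  symm
  refine Finset.sum_bij (fun β _ => fun x => ρ.character x * β (t x)) ?_ ?_ ?_ ?_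
  · intro β hβ
    have hβ' := mem_Irr.mp hβ
    rw [Finset.mem_filter]
    refine ⟨mem_Irr.mpr (h1 β hβ'), ?_⟩
    rw [ov_iff]
    have e : (fun l => ρ.character (j l) * β (t (j l))) = β 1 • fun l => ρ.character (j l) := by
      funext l
      have : t (j l) = 1 := by
        have h4 : j l ∈ t.ker := by
          rw [hk]
          exact ⟨l, rfl⟩
        exact h4
      rw [this, Pi.smul_apply, smul_eq_mul, mul_comm]
    rw [e, IC.B_smul_left, IC.B_irr h h, if_pos rfl, mul_one, ← ndeg_cast hβ']
    exact_mod_cast (ndeg_pos hβ').ne'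
  · intro β hβ β' hβ' he
    exact h2 β β' (mem_Irr.mp hβ) (mem_Irr.mp hβ') he
  · intro χ hχ
    rw [Finset.mem_filter] at hχ
    obtain ⟨β, hβ, e⟩ := h3 χ (mem_Irr.mp hχ.1) hχ.2
    exact ⟨β, mem_Irr.mpr hβ, e.symm⟩
  · intro β hβ
    have hβ' := mem_Irr.mp hβ
    rw [← map_mul]
    congr 1
    symm
    apply ndeg_eq
    push_cast
    rw [ndeg_cast h, ndeg_cast hβ', map_one, map_one]

end general

section wreath

variable {G H X : Type} [Group G] [Group H] [MulAction H X] [Fintype G] [Fintype H] [Fintype X]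

theorem fixes_iff_stab {c : X → G → ℂ} (hc : ∀ x, IsIrr (c x)) (γ : WrX G H X) :
    γ ∈ inr' G (H := H) c ↔ fixes (SemidirectProduct.inl : (X → G) →* WrX G H X) (bt c) γ := by
  have h1 : ∀ f : X → G, bt c (fun w => γ.left w * f (γ.right⁻¹ • w) * (γ.left w)⁻¹) =
      bt (fun x => c (γ.right • x)) f := by
    intro f
    unfold bt
    refine (Fintype.prod_equiv (MulAction.toPerm γ.right) _ _ fun x => ?_).symm
    change _ = c (γ.right • x) (γ.left (γ.right • x) * f (γ.right⁻¹ • γ.right • x) *
      (γ.left (γ.right • x))⁻¹)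
    rw [inv_smul_smul]
    exact ((show IC.IsIrrChar (c (γ.right • x)) from hc _).isClass _ _).symm
  have h2 : fixes (SemidirectProduct.inl : (X → G) →* WrX G H X) (bt c) γ ↔
      bt (fun x => c (γ.right • x)) = bt c := by
    unfold fixes
    constructor
    · intro h
      funext f
      rw [← h1]
      exact h f _ (conj_inl γ f)
    · intro h f f' hf
      rw [conj_inl] at hf
      rw [← SemidirectProduct.inl_injective hf, h1, h]
  rw [h2]
  constructor
  · intro h
    congr 1
    funext x
    exact h x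
  · intro h x
    exact congrFun (bt_inj (fun x => hc _) hc h) x

/-- the base group in the inertia group -/
def jB {C : Type} (c : X → C) : (X → G) →* inr' G (H := H) c where
  toFun f := ⟨SemidirectProduct.inl f, by
    change (SemidirectProduct.rightHom (SemidirectProduct.inl f : WrX G H X)) ∈ stabC H c
    rw [SemidirectProduct.rightHom_inl]
    exact (stabC H c).one_mem⟩
  map_one' := Subtype.ext (map_one _)
  map_mul' f g := Subtype.ext (map_mul _ f g)

/-- the projection of the inertia group -/
def tB {C : Type} (c : X → C) : inr' G (H := H) c →* stabC H c where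
  toFun γ := ⟨(γ : WrX G H X).right, γ.2⟩
  map_one' := rfl
  map_mul' _ _ := rfl

theorem tB_surj {C : Type} (c : X → C) : Function.Surjective (tB (G := G) (H := H) c) := by
  rintro ⟨h, hh⟩
  exact ⟨⟨SemidirectProduct.inr h, hh⟩, rfl⟩

theorem tB_ker {C : Type} (c : X → C) :
    (tB (G := G) (H := H) c).ker = (jB (G := G) (H := H) c).range := by
  ext ⟨γ, hγ⟩
  rw [MonoidHom.mem_ker, MonoidHom.mem_range]
  constructor
  · intro h
    refine ⟨γ.left, Subtype.ext (SemidirectProduct.ext rfl ?_)⟩
    exact (congrArg Subtype.val h).symm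
  · rintro ⟨f, hf⟩
    rw [← hf]
    rfl

theorem jB_inj {C : Type} (c : X → C) : Function.Injective (jB (G := G) (H := H) c) := by
  intro f g h
  exact SemidirectProduct.inl_injective (congrArg Subtype.val h)

theorem card_inr' {C : Type} (c : X → C) : Nat.card (inr' G (H := H) c) =
    Nat.card G ^ Nat.card X * Nat.card (stabC H c) := by
  have h1 := Subgroup.card_mul_index (tB (G := G) (H := H) c).ker
  rw [Subgroup.index_ker, MonoidHom.range_eq_top.mpr (tB_surj c), Subgroup.card_top] at h1
  rw [← h1, tB_ker, ← Nat.card_congr (MonoidHom.ofInjective (jB_inj c)).toEquiv, Nat.card_fun]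

theorem index_inr' {C : Type} (c : X → C) :
    (inr' G (H := H) c).index = (stabC H c).index :=
  Subgroup.index_comap_of_surjective _ SemidirectProduct.rightHom_surjective

/-- the characters over an irreducible character of the base group -/
theorem wo_base {R : Type} [CommRing R] (w : ℕ →* R) {c : X → G → ℂ} (hc : ∀ x, IsIrr (c x)) :
    wo w (SemidirectProduct.inl : (X → G) →* WrX G H X) (bt c) =
      w (stabC H c).index * ((∏ x, w (ndeg (c x))) * wt w (stabC H c)) := by
  haveI : Fintype (WrX G H X) := Fintype.ofFinite _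
  haveI : Fintype (inr' G (H := H) c) := Fintype.ofFinite _
  have hN : (SemidirectProduct.inl : (X → G) →* WrX G H X).range.Normal := by
    rw [SemidirectProduct.range_inl_eq_ker_rightHom]
    infer_instance
  rw [Pool.Agent.K3h96.IN.t_S1 R w (X → G) (WrX G H X) SemidirectProduct.inl
    SemidirectProduct.inl_injective hN (bt c) (bt_irr hc) (inr' G (H := H) c)
    (fixes_iff_stab hc) (jB c) (fun _ => rfl), index_inr']
  have e : (fun f : X → G => (eR (H := H) hc).character (jB c f)) = bt c := by
    funext f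
    rw [eR_char]
    exact em_trace hc f
  have h1 := wo_ext (jB c) w (jB_inj c) (tB c) (tB_surj c) (tB_ker c) (eR (H := H) hc)
    (by rw [e]; exact bt_irr hc)
  rw [e] at h1
  rw [h1, ndeg_bt hc, map_prod]

theorem card_mul_wt_wrX (w : ℕ →* ℤ[X]) : (Nat.card H : ℤ[X]) * wt w (WrX G H X) =
    ∑ c ∈ Fintype.piFinset (fun _ : X => Irr G), (Nat.card (stabC H c) : ℤ[X]) *
      (w (stabC H c).index * ((∏ x, w (ndeg (c x))) * wt w (stabC H c))) := by
  haveI : Fintype (WrX G H X) := Fintype.ofFinite _
  have hN : (SemidirectProduct.inl : (X → G) →* WrX G H X).range.Normal := by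
    rw [SemidirectProduct.range_inl_eq_ker_rightHom]
    infer_instance
  -- a choice of the inertia groups
  have hT : ∃ T : ((X → G) → ℂ) → Subgroup (WrX G H X),
      (∀ θ, IsIrr θ → ∀ x, x ∈ T θ ↔
        fixes (SemidirectProduct.inl : (X → G) →* WrX G H X) θ x) ∧
      ∀ c : X → G → ℂ, (∀ x, IsIrr (c x)) → T (bt c) = inr' G (H := H) c := by
    refine ⟨fun θ => if h : ∃ c : X → G → ℂ, (∀ x, IsIrr (c x)) ∧ θ = bt c then
      inr' G (H := H) h.choose else ⊤, ?_, ?_⟩
    · intro θ hθ x
      have h : ∃ c : X → G → ℂ, (∀ x, IsIrr (c x)) ∧ θ = bt c := by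
        have h1 := mem_Irr.mpr hθ
        rw [irr_pow, Finset.mem_image] at h1
        obtain ⟨c, hc, rfl⟩ := h1
        rw [Fintype.mem_piFinset] at hc
        exact ⟨c, fun x => mem_Irr.mp (hc x), rfl⟩
      dsimp only
      rw [dif_pos h]
      conv_rhs => rw [h.choose_spec.2]
      exact fixes_iff_stab h.choose_spec.1 x
    · intro c hc
      have h : ∃ d : X → G → ℂ, (∀ x, IsIrr (d x)) ∧ bt c = bt d := ⟨c, hc, rfl⟩
      dsimp only
      rw [dif_pos h, ← bt_inj hc h.choose_spec.1 h.choose_spec.2]
  obtain ⟨T, hT1, hT2⟩ := hT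
  have h1 := card_mul_wt (SemidirectProduct.inl : (X → G) →* WrX G H X) w
    SemidirectProduct.inl_injective hN T hT1
  rw [irr_pow, Finset.sum_image] at h1
  · have h2 : ∀ c ∈ Fintype.piFinset (fun _ : X => Irr G), (Nat.card (T (bt c)) : ℤ[X]) *
        wo w (SemidirectProduct.inl : (X → G) →* WrX G H X) (bt c) =
        (Nat.card G ^ Nat.card X : ℤ[X]) * ((Nat.card (stabC H c) : ℤ[X]) *
      (w (stabC H c).index * ((∏ x, w (ndeg (c x))) * wt w (stabC H c)))) := by
      intro c hc
      rw [Fintype.mem_piFinset] at hc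
      have hc' : ∀ x, IsIrr (c x) := fun x => mem_Irr.mp (hc x)
      rw [hT2 c hc', card_inr', wo_base w hc']
      push_cast
      ring
    rw [Finset.sum_congr rfl h2, ← Finset.mul_sum, card_WrX] at h1
    have h3 : (Nat.card G ^ Nat.card X : ℤ[X]) ≠ 0 := by
      have : (Nat.card G : ℤ[X]) ≠ 0 := by exact_mod_cast Nat.card_pos.ne'
      exact pow_ne_zero _ this
    apply mul_left_cancel₀ h3
    rw [← h1]
    push_cast
    ring
  · intro c hc d hd h
    rw [Finset.mem_coe, Fintype.mem_piFinset] at hc hd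
    exact bt_inj (fun x => mem_Irr.mp (hc x)) (fun x => mem_Irr.mp (hd x)) h

end wreath

/-! ### the coefficient of the highest exponent -/

section coeff

variable {p : ℕ}

/-- the weight counting the exponent of `p` -/
def vw (p : ℕ) : ℕ →* ℤ[X] where
  toFun n := if n = 0 then 0 else Polynomial.X ^ n.factorization p
  map_one' := by simp
  map_mul' a b := by
    by_cases ha : a = 0
    · simp [ha]
    by_cases hb : b = 0
    · simp [hb]
    rw [if_neg ha, if_neg hb, if_neg (Nat.mul_ne_zero ha hb), Nat.factorization_mul ha hb,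
      Finsupp.add_apply, pow_add]

theorem vw_apply {n : ℕ} (hn : n ≠ 0) : vw p n = Polynomial.X ^ n.factorization p := if_neg hn

theorem vdeg_le {G : Type} [Group G] [Fintype G] {χ : G → ℂ} (h : IsIrr χ) :
    (ndeg χ).factorization p ≤ (Nat.card G).factorization p :=
  fac_le h (ndeg_cast h).symm

theorem vw_deg {G : Type} [Group G] [Fintype G] {χ : G → ℂ} (h : IsIrr χ) :
    (vw p (ndeg χ)).natDegree ≤ (Nat.card G).factorization p := by
  rw [vw_apply (ndeg_pos h).ne', natDegree_X_pow]
  exact vdeg_le h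

theorem vw_coeff {G : Type} [Group G] [Fintype G] {χ : G → ℂ} (h : IsIrr χ) :
    (vw p (ndeg χ)).coeff ((Nat.card G).factorization p) = if DefZero p χ then 1 else 0 := by
  rw [vw_apply (ndeg_pos h).ne', coeff_X_pow]
  have h1 := defZero_iff (p := p) (ndeg_cast h).symm
  by_cases h2 : DefZero p χ
  · rw [if_pos h2, if_pos (h1.mp h2).symm]
  · rw [if_neg h2, if_neg fun h3 => h2 (h1.mpr h3.symm)]

theorem wt_deg (G : Type) [Group G] [Finite G] :
    (wt (vw p) G).natDegree ≤ (Nat.card G).factorization p := by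
  haveI := Fintype.ofFinite G
  rw [wt_eq]
  exact natDegree_sum_le_of_forall_le _ _ fun χ hχ => vw_deg (mem_Irr.mp hχ)

theorem wt_coeff (G : Type) [Group G] [Finite G] :
    (wt (vw p) G).coeff ((Nat.card G).factorization p) = numDefectZero p G := by
  haveI := Fintype.ofFinite G
  rw [wt_eq, finsetSum_coeff, Finset.sum_congr rfl fun χ hχ => vw_coeff (mem_Irr.mp hχ),
    numDefectZero_card, Finset.card_filter]
  push_cast
  rfl

variable {G H X : Type} [Group G] [Group H] [MulAction H X] [Fintype G] [Fintype H] [Fintype X]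

theorem coeff_term {c : X → G → ℂ} (hc : ∀ x, IsIrr (c x)) :
    ((Nat.card (stabC H c) : ℤ[X]) *
      (vw p (stabC H c).index * ((∏ x, vw p (ndeg (c x))) * wt (vw p) (stabC H c)))).coeff
      ((Nat.card (WrX G H X)).factorization p) =
    if ∀ x, DefZero p (c x) then (Nat.card (stabC H c) : ℤ) * numDefectZero p (stabC H c)
    else 0 := by
  have h0 : (Nat.card (WrX G H X)).factorization p = (stabC H c).index.factorization p +
      (Nat.card X * (Nat.card G).factorization p + (Nat.card (stabC H c)).factorization p) := by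
    rw [card_WrX, ← Subgroup.card_mul_index (stabC H c), Nat.factorization_mul
      (pow_ne_zero _ Nat.card_pos.ne') (Nat.mul_ne_zero Nat.card_pos.ne'
        Subgroup.index_ne_zero_of_finite), Nat.factorization_mul Nat.card_pos.ne'
        Subgroup.index_ne_zero_of_finite, Nat.factorization_pow]
    simp only [Finsupp.add_apply, Finsupp.smul_apply, smul_eq_mul]
    ring
  have h1 : ((Nat.card (stabC H c) : ℤ[X]) *
      (vw p (stabC H c).index * ((∏ x, vw p (ndeg (c x))) * wt (vw p) (stabC H c)))).coeff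
      ((Nat.card (WrX G H X)).factorization p) = (Nat.card (stabC H c) : ℤ) *
      (vw p (stabC H c).index * ((∏ x, vw p (ndeg (c x))) * wt (vw p) (stabC H c))).coeff
      ((Nat.card (WrX G H X)).factorization p) := by
    rw [show (Nat.card (stabC H c) : ℤ[X]) = C (Nat.card (stabC H c) : ℤ) by simp, coeff_C_mul]
  have h2 : (∏ x, vw p (ndeg (c x))).natDegree ≤
      Nat.card X * (Nat.card G).factorization p := by
    refine (natDegree_prod_le _ _).trans ?_
    refine (Finset.sum_le_sum fun x _ => vw_deg (p := p) (hc x)).trans ?_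
    rw [Finset.sum_const, Finset.card_univ, Nat.card_eq_fintype_card (α := X), smul_eq_mul]
  have h3 : (∏ x, vw p (ndeg (c x))).coeff (Nat.card X * (Nat.card G).factorization p) =
      if ∀ x, DefZero p (c x) then 1 else 0 := by
    rw [Nat.card_eq_fintype_card (α := X), ← Finset.card_univ,
      coeff_prod_of_natDegree_le _ _ _ fun x _ => vw_deg (p := p) (hc x),
      Finset.prod_congr rfl fun x _ => vw_coeff (hc x)]
    split_ifs with h
    · exact Finset.prod_eq_one fun x _ => if_pos (h x)
    · push Not at h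
      obtain ⟨x, hx⟩ := h
      exact Finset.prod_eq_zero (Finset.mem_univ x) (if_neg hx)
  rw [h1, h0, vw_apply Subgroup.index_ne_zero_of_finite, coeff_X_pow_mul',
    if_pos (Nat.le_add_right _ _), Nat.add_sub_cancel_left,
    coeff_mul_add_eq_of_natDegree_le h2 (wt_deg _), h3, wt_coeff]
  split_ifs <;> simp

/-- the characters of `p`-defect zero of a wreath product -/
theorem z_wrX : (Nat.card H : ℤ) * numDefectZero p (WrX G H X) =
    ∑ c : X → Fin (numDefectZero p G),
      (Nat.card (stabC H c) : ℤ) * numDefectZero p (stabC H c) := by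
  have h1 := congrArg (fun P : ℤ[X] => P.coeff ((Nat.card (WrX G H X)).factorization p))
    (card_mul_wt_wrX (G := G) (H := H) (X := X) (vw p))
  rw [show (Nat.card H : ℤ[X]) = C (Nat.card H : ℤ) by simp, coeff_C_mul, wt_coeff,
    finsetSum_coeff] at h1
  rw [h1]
  have h2 : ∀ c ∈ Fintype.piFinset (fun _ : X => Irr G), ((Nat.card (stabC H c) : ℤ[X]) *
      (vw p (stabC H c).index * ((∏ x, vw p (ndeg (c x))) * wt (vw p) (stabC H c)))).coeff
      ((Nat.card (WrX G H X)).factorization p) =
      if ∀ x, DefZero p (c x) then (Nat.card (stabC H c) : ℤ) * numDefectZero p (stabC H c)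
      else 0 := by
    intro c hc
    rw [Fintype.mem_piFinset] at hc
    exact coeff_term fun x => mem_Irr.mp (hc x)
  rw [Finset.sum_congr rfl h2, ← Finset.sum_filter]
  have e : {χ : G → ℂ // χ ∈ (Irr G).filter (DefZero p)} ≃ Fin (numDefectZero p G) := by
    rw [numDefectZero_card]
    exact Finset.equivFin _
  symm
  refine Finset.sum_bij (fun c _ => fun x => (e.symm (c x)).1) ?_ ?_ ?_ ?_
  · intro c _
    rw [Finset.mem_filter, Fintype.mem_piFinset]
    exact ⟨fun x => (Finset.mem_filter.mp (e.symm (c x)).2).1,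
      fun x => (Finset.mem_filter.mp (e.symm (c x)).2).2⟩
  · intro c _ d _ h
    funext x
    exact e.symm.injective (Subtype.ext (congrFun h x))
  · intro c hc
    rw [Finset.mem_filter, Fintype.mem_piFinset] at hc
    refine ⟨fun x => e ⟨c x, Finset.mem_filter.mpr ⟨hc.1 x, hc.2 x⟩⟩, Finset.mem_univ _, ?_⟩
    funext x
    simp only [Equiv.symm_apply_apply]
  · intro c _
    have h3 : stabC H (fun x => (e.symm (c x)).1) = stabC H c := by
      ext h
      rw [mem_stabC, mem_stabC]
      refine forall_congr' fun x => ?_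
      constructor
      · intro h4
        exact e.symm.injective (Subtype.ext h4)
      · intro h4
        rw [h4]
    rw [h3]

end coeff

end Pool.Agent.W2helper32.KR
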